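import Pool.Agent.Lib.MP_f46d6a.Local
import Pool.Agent.Lib.MP_f46d6a_h64.Hole2
import Pool.Agent.Lib.MP_f46d6a_h64.Positive
import Pool.Agent.Lib.MP_f46d6a_h23.Inner

/-!
# From an optimal domain to a critical configuration
-/

set_option autoImplicit false

open MeasureTheory Set Filter Topology
open scoped ContDiff

namespace Pool.Agent.Lib.MP_f46d6a

open Pool.Agent.Lib.MP_dac83a

/-- scaling an eigenfunction -/
theorem Eigf.smul {U : Set P} {l : ℝ} {φ φx φy : P → ℝ} (h : Eigf U l φ φx φy) {c : ℝ}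
    (hc : 0 ≤ c) : Eigf U l (fun z => c * φ z) (fun z => c * φx z) (fun z => c * φy z) := by
  refine ⟨h.mem.smul c, fun η ηx ηy hη => ?_, ?_⟩
  · have e := h.eq _ _ _ hη
    have e1 : ∫ z, (c * φx z * ηx z + c * φy z * ηy z) =
        c * ∫ z, (φx z * ηx z + φy z * ηy z) := by
      rw [← integral_const_mul]; congr 1; ext z; ring
    have e2 : ∫ z, c * φ z * η z = c * ∫ z, φ z * η z := by
      rw [← integral_const_mul]; congr 1; ext z; ring
    rw [e1, e2, e]; ring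
  · filter_upwards [h.nonneg] with z hz
    exact mul_nonneg hc hz

theorem opt_compact {α : ℝ} (hα0 : 0 < α) (hα1 : α < 1) {Ω : Set P} (hΩ : IsOpen Ω)
    (hne : Ω.Nonempty) (hf : volume Ω ≠ ⊤) (hl : lamP Ω = 1) (hopt : Opt α Ω) (K : Set P)
    (hK : IsCompact K) (hKne : (Ω \ K).Nonempty) :
    lamP (Ω \ K) ^ α * torP (Ω \ K) ≤ torP Ω := by
  have hO : IsOpen (Ω \ K) := hΩ.sdiff hK.isClosed
  have hO' : volume (Ω \ K) ≠ ⊤ := ((measure_mono Set.sdiff_subset).trans_lt hf.lt_top).ne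
  have h := hopt (Ω \ K) hO hKne hO'
  rw [hl, Real.one_rpow, one_mul] at h
  have hV := vol_pos hΩ hne hf
  have hT := torP_pos hΩ hne hf
  have h1 : vol (Ω \ K) ≤ vol Ω := ENNReal.toReal_mono hf (measure_mono Set.sdiff_subset)
  have h2 : vol (Ω \ K) ^ (2 - α) ≤ vol Ω ^ (2 - α) :=
    Real.rpow_le_rpow ENNReal.toReal_nonneg h1 (by linarith)
  have h3 : 0 < vol Ω ^ (2 - α) := Real.rpow_pos_of_pos hV _
  have h4 : torP Ω * vol (Ω \ K) ^ (2 - α) ≤ torP Ω * vol Ω ^ (2 - α) := by gcongr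
  exact le_of_mul_le_mul_right (h.trans h4) h3

theorem exists_crit {δ α : ℝ} {Ω : Set P} (hδ : 0 < δ) (hδ1 : δ ≤ 1) (h1 : 1 - δ < α)
    (hα0 : 0 < α) (hα1 : α < 1) (hΩ : IsOpen Ω) (hne : Ω.Nonempty) (hf : volume Ω ≠ ⊤)
    (hl : lamP Ω = 1) (hT : (1 - δ) * vol Ω ≤ torP Ω) (hopt : Opt α Ω) (hc : IsPreconnected Ω) :
    ∃ w wx wy p px py, Crit δ α Ω w wx wy p px py := by
  obtain ⟨w, wx, wy, hw⟩ := exists_tor hΩ hf
  have hTw := (hw.torP_eq hΩ hf).1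
  obtain ⟨φ, φx, φy, hφ, hn⟩ := exists_eig hΩ hne hf
  obtain ⟨γ, hγ, hgap⟩ := gap hΩ hne hc hf hφ hn
  rw [hl] at hφ hgap
  have hTp := torP_pos hΩ hne hf
  have hole' := hole hΩ hne hf hα0 hα1.le hγ hw hTw hφ hl hn hgap
    (fun K hK hKne => opt_compact hα0 hα1 hΩ hne hf hl hopt K hK hKne)
  have inner' := Pool.Agent.Lib.MP_f46d6a.H23.inner hΩ hne hf hα0 hα1 hγ hw hTw hφ hl hn hgap hopt
  have hI : 0 ≤ α * ∫ z, w z := by rw [← hTw]; positivity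
  set c := √(α * ∫ z, w z) with hcdef
  have c0 : 0 ≤ c := Real.sqrt_nonneg _
  have c2 : c ^ 2 = α * ∫ z, w z := Real.sq_sqrt hI
  refine ⟨w, wx, wy, fun z => c * φ z, fun z => c * φx z, fun z => c * φy z, ?_⟩
  refine ⟨hΩ, hne, hf, hδ, hδ1, h1, hα1, hw, hφ.smul c0, ?_, ?_, ?_, hole', ?_⟩
  · intro v a b hv
    have := hv.lam_le
    rwa [hl, one_mul] at this
  · simp only [mul_pow]
    rw [integral_const_mul, hn, c2, mul_one]
  · rw [← hTw]; exact hT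
  · intro X Y hX hY
    rw [← inner' X Y hX hY, hTw]
    congr 1
    ext z
    simp only [mul_pow, c2]
    have e : c * φx z * (c * φy z) = α * (∫ z, w z) * (φx z * φy z) := by
      rw [← c2]; ring
    rw [e]
    ring

/-- the final reduction: absence of critical configurations implies non-closedness of the
contradiction hypothesis used in `not_closed_of` -/
theorem hno_of_no_crit (h : ∃ δ : ℝ, 0 < δ ∧ δ ≤ 1 ∧ ∀ (α : ℝ) (Ω : Set P)
      (w wx wy p px py : P → ℝ), ¬ Crit δ α Ω w wx wy p px py) :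
    ∃ δ : ℝ, 0 < δ ∧ ∀ (α : ℝ) (Ω : Set P), 1 - δ < α → 0 < α → α < 1 → IsOpen Ω →
      Ω.Nonempty → volume Ω ≠ ⊤ → lamP Ω = 1 → (1 - δ) * vol Ω ≤ torP Ω → torP Ω ≤ vol Ω →
      Opt α Ω → IsPreconnected Ω → False := by
  obtain ⟨δ, h0, h1, h2⟩ := h
  refine ⟨δ, h0, ?_⟩
  intro α Ω a1 a2 a3 a4 a5 a6 a7 a8 _ a10 a11
  obtain ⟨w, wx, wy, p, px, py, hC⟩ := exists_crit h0 h1 a1 a2 a3 a4 a5 a6 a7 a8 a10 a11
  exact h2 _ _ _ _ _ _ _ _ hC

end Pool.Agent.Lib.MP_f46d6a
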