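import Mathlib

/-!
# MP_f46d6a_an: definitions for the attainable set (Dirichlet eigenvalue, torsional rigidity)
-/

set_option autoImplicit false

open MeasureTheory Set
open scoped ContDiff

namespace Pool.Agent.MP_f46d6a

/-- `u` is a smooth function on `ℝ^d` with compact support contained in `Ω` -/
def IsTestOn {d : ℕ} (Ω : Set (EuclideanSpace ℝ (Fin d))) (u : EuclideanSpace ℝ (Fin d) → ℝ) :
    Prop :=
  ContDiff ℝ ∞ u ∧ HasCompactSupport u ∧ tsupport u ⊆ Ω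

/-- first Dirichlet eigenvalue of the Laplacian on `Ω` (infimum of the Rayleigh quotient over
`C_c^∞(Ω)`, which is dense in `H^1_0(Ω)`) -/
noncomputable def lambda1 {d : ℕ} (Ω : Set (EuclideanSpace ℝ (Fin d))) : ℝ :=
  sInf {q | ∃ u, IsTestOn Ω u ∧ 0 < ∫ x, u x ^ 2 ∧
    q = (∫ x, ‖fderiv ℝ u x‖ ^ 2) / ∫ x, u x ^ 2}

/-- torsional rigidity `T(Ω) = -2 inf (1/2 ∫|∇u|² - ∫ u) = sup (2 ∫ u - ∫|∇u|²)` -/
noncomputable def torsion {d : ℕ} (Ω : Set (EuclideanSpace ℝ (Fin d))) : ℝ :=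
  sSup {q | ∃ u, IsTestOn Ω u ∧ q = 2 * (∫ x, u x) - ∫ x, ‖fderiv ℝ u x‖ ^ 2}

/-- the attainable set `E_d` -/
def attainable (d : ℕ) : Set (ℝ × ℝ) :=
  {p | ∃ Ω : Set (EuclideanSpace ℝ (Fin d)), IsOpen Ω ∧ Ω.Nonempty ∧ volume Ω ≤ 1 ∧
    p = (lambda1 Ω, (lambda1 Ω * torsion Ω)⁻¹)}

end Pool.Agent.MP_f46d6a
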