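import Pool.Agent.Lib.MP_f46d6a_h64.Hole

/-!
# Dominated elements of `H¹₀`, the obstacle problem
-/

set_option autoImplicit false

open MeasureTheory Set Filter Topology
open scoped ContDiff Manifold

namespace Pool.Agent.Lib.MP_f46d6a

open Pool.Agent.Lib.MP_dac83a

/-- cut-off functions -/
theorem exists_cutoff {K V : Set P} (hK : IsCompact K) (hV : IsOpen V) (hKV : K ⊆ V) :
    ∃ χ : P → ℝ, IsTest V χ ∧ (∀ z ∈ K, χ z = 1) ∧ (∀ z, 0 ≤ χ z) ∧ (∀ z, χ z ≤ 1) := by
  obtain ⟨K', hK', h1, h2⟩ := exists_compact_between hK hV hKV
  obtain ⟨f, f0, f1, f2⟩ := exists_contMDiffMap_zero_one_of_isClosed (n := (⊤ : ℕ∞)) (𝓘(ℝ, P))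
    (s := (interior K')ᶜ) (t := K) isOpen_interior.isClosed_compl hK.isClosed
    (by rw [disjoint_compl_left_iff_subset]; exact h1)
  have hs : tsupport (f : P → ℝ) ⊆ K' := by
    apply closure_minimal _ hK'.isClosed
    intro z hz
    by_contra hc
    apply hz
    exact f0 (fun h => hc (interior_subset h))
  refine ⟨f, ⟨f.contMDiff.contDiff, hK'.of_isClosed_subset (isClosed_tsupport _) hs,
    hs.trans h2⟩, fun z hz => f1 hz, fun z => (f2 z).1, fun z => (f2 z).2⟩

/-- a common bound for a test function and its derivatives -/
theorem _root_.Pool.Agent.Lib.MP_dac83a.IsTest.bounds {V : Set P} {χ : P → ℝ} (h : IsTest V χ) :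
    ∃ C, (∀ z, |χ z| ≤ C) ∧ (∀ z, |dd ex χ z| ≤ C) ∧ (∀ z, |dd ey χ z| ≤ C) := by
  have key : ∀ {f : P → ℝ}, IsTest V f → ∃ C, ∀ z, |f z| ≤ C := by
    intro f hf
    obtain ⟨C, hC⟩ := hf.cpt.exists_bound_of_continuous hf.smooth.continuous
    exact ⟨C, fun z => by simpa using hC z⟩
  obtain ⟨C1, h1⟩ := key h
  obtain ⟨C2, h2⟩ := key (h.dd ex)
  obtain ⟨C3, h3⟩ := key (h.dd ey)
  exact ⟨max C1 (max C2 C3), fun z => (h1 z).trans (le_max_left _ _),
    fun z => (h2 z).trans ((le_max_left _ _).trans (le_max_right _ _)),
    fun z => (h3 z).trans ((le_max_right _ _).trans (le_max_right _ _))⟩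

namespace H0

variable {U V : Set P} {u a b v c d : P → ℝ}

/-- an element of `H¹₀(U)` between zero and an element of `H¹₀(V)` belongs to `H¹₀(V)` -/
theorem dominated (hV : IsOpen V) (h : H0 U u a b) (h' : H0 V v c d)
    (h0 : ∀ᵐ z, 0 ≤ u z) (h1 : ∀ᵐ z, u z ≤ v z) : H0 V u a b := by
  have hU' := h.mono (subset_univ U)
  have hV' := h'.mono (subset_univ V)
  obtain ⟨φ, ht, c1, c2, c3⟩ := h'.app
  obtain ⟨k, hk, hl⟩ := c1.exists_ae
  have kz := kink_zero isOpen_univ (hU'.sub hV')
  -- positive parts
  have hp : ∀ n, H0 univ (fun z => max 0 (u z - φ n z))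
      (fun z => if 0 < u z - φ n z then a z - dd ex (φ n) z else 0)
      (fun z => if 0 < u z - φ n z then b z - dd ey (φ n) z else 0) := by
    intro n
    have := posPart isOpen_univ (hU'.sub (H0.of_test ((ht n).mono (subset_univ V)))) le_rfl
    simpa only [sub_zero] using this
  have hm : ∀ n, H0 V (fun z => u z - max 0 (u z - φ n z))
      (fun z => a z - if 0 < u z - φ n z then a z - dd ex (φ n) z else 0)
      (fun z => b z - if 0 < u z - φ n z then b z - dd ey (φ n) z else 0) := by
    intro n
    obtain ⟨χ, hχ, χ1, χ2, χ3⟩ := exists_cutoff (ht n).cpt.isCompact hV (ht n).sub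
    obtain ⟨C, b0, b1, b2⟩ := hχ.bounds
    have g1 := M2.mul_C1_to hV h (hχ.smooth.of_le one_le_inf) b0 b1 b2
      (inter_subset_right.trans hχ.sub)
    have g2 := posPart hV (g1.sub (H0.of_test (ht n))) le_rfl
    have g3 := g1.sub g2
    obtain ⟨e1, e2⟩ := H0.unique g3 (hU'.sub (hp n)) (by
      filter_upwards [h0] with z hz
      by_cases hc : φ n z = 0
      · have a1 : 0 ≤ χ z * u z := mul_nonneg (χ2 z) hz
        simp only [hc, sub_zero]
        rw [max_eq_right a1, max_eq_right hz]
        ring
      · have : χ z = 1 := χ1 z (subset_tsupport _ hc)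
        simp only [this, one_mul, sub_zero])
    refine g3.congr ?_ e1 e2
    filter_upwards [h0] with z hz
    by_cases hc : φ n z = 0
    · have a1 : 0 ≤ χ z * u z := mul_nonneg (χ2 z) hz
      simp only [hc, sub_zero]
      rw [max_eq_right a1, max_eq_right hz]
      ring
    · have : χ z = 1 := χ1 z (subset_tsupport _ hc)
      simp only [this, one_mul, sub_zero]
  -- the positive parts tend to zero along the subsequence
  have p0 : Conv2 volume (fun n z => max 0 (u z - φ (k n) z)) (fun _ => 0) := by
    have q1 := (Conv2.const h'.mu).sub (c1.subseq hk)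
    have q2 : Conv2 volume (fun n z => v z - φ (k n) z) (fun _ => 0) :=
      q1.congr (fun n => EventuallyEq.rfl) (by filter_upwards with z; ring)
    refine ⟨fun n => (hp (k n)).mu, MemLp.zero, ?_⟩
    refine squeeze_zero (fun n => integral_nonneg fun z => sq_nonneg _) (fun n => ?_) q2.lim
    have i1 : MemLp (fun z => max 0 (u z - φ (k n) z) - 0) 2 volume := by
      simpa using (hp (k n)).mu
    apply integral_mono_ae i1.integrable_sq (q2.sub_mem n).integrable_sq
    filter_upwards [h1] with z hz
    simp only [sub_zero]
    rw [← sq_abs (v z - φ (k n) z)]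
    have : max 0 (u z - φ (k n) z) ≤ |v z - φ (k n) z| := by
      apply max_le (abs_nonneg _)
      exact (by linarith : u z - φ (k n) z ≤ v z - φ (k n) z).trans (le_abs_self _)
    have hn : 0 ≤ max 0 (u z - φ (k n) z) := le_max_left _ _
    gcongr
  have pd : ∀ {e e' : P → ℝ} {ψ : ℕ → P → ℝ}, MemLp e 2 volume → Conv2 volume ψ e' →
      (∀ᵐ z, u z - v z = 0 → e z - e' z = 0) →
      (∀ n, MemLp (fun z => if 0 < u z - φ (k n) z then e z - ψ (k n) z else 0) 2 volume) →
      Conv2 volume (fun n z => if 0 < u z - φ (k n) z then e z - ψ (k n) z else 0) (fun _ => 0) := by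
    intro e e' ψ me ce he hmem
    have q1 : Conv2 volume (fun n z => (if 0 < u z - φ (k n) z then (1 : ℝ) else 0) * (e' z - ψ (k n) z))
        (fun _ => 0) := by
      have q2 := (Conv2.const ce.mem).sub (ce.subseq hk)
      have q3 : Conv2 volume (fun n z => e' z - ψ (k n) z) (fun _ => 0) :=
        q2.congr (fun n => EventuallyEq.rfl) (by filter_upwards with z; ring)
      have meas : ∀ n, AEStronglyMeasurable (fun z => if 0 < u z - φ (k n) z then (1 : ℝ) else 0)
          volume := by
        intro n
        have hns : NullMeasurableSet {z | 0 < u z - φ (k n) z} volume :=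
          nullMeasurableSet_lt aemeasurable_const
            (h.mu.aestronglyMeasurable.aemeasurable.sub
              (ht (k n)).smooth.continuous.aemeasurable)
        have := (aestronglyMeasurable_const (b := (1 : ℝ)) (μ := volume)).indicator₀ hns
        refine this.congr ?_
        filter_upwards with z
        simp only [indicator, mem_ofPred_eq]
      have mm : ∀ n, MemLp (fun z => (if 0 < u z - φ (k n) z then (1 : ℝ) else 0) *
          (e' z - ψ (k n) z)) 2 volume := by
        intro n
        refine (q3.memn n).of_le ((meas n).mul (q3.memn n).aestronglyMeasurable) ?_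
        filter_upwards with z
        split_ifs <;> simp
      refine ⟨mm, MemLp.zero, ?_⟩
      refine squeeze_zero (fun n => integral_nonneg fun z => sq_nonneg _) (fun n => ?_) q3.lim
      apply integral_mono
      · have := (mm n).integrable_sq
        simpa using this
      · exact (q3.sub_mem n).integrable_sq
      · intro z
        show ((if 0 < u z - φ (k n) z then (1 : ℝ) else 0) * (e' z - ψ (k n) z) - 0) ^ 2 ≤
          (e' z - ψ (k n) z - 0) ^ 2
        split_ifs
        · simp
        · simp; positivity
    have q2 : Conv2 volume (fun n z => (if 0 < u z - φ (k n) z then (1 : ℝ) else 0) * (e z - e' z))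
        (fun _ => 0) := by
      have meas : ∀ n, AEStronglyMeasurable (fun z => if 0 < u z - φ (k n) z then (1 : ℝ) else 0)
          volume := by
        intro n
        have hns : NullMeasurableSet {z | 0 < u z - φ (k n) z} volume :=
          nullMeasurableSet_lt aemeasurable_const
            (h.mu.aestronglyMeasurable.aemeasurable.sub
              (ht (k n)).smooth.continuous.aemeasurable)
        have := (aestronglyMeasurable_const (b := (1 : ℝ)) (μ := volume)).indicator₀ hns
        refine this.congr ?_
        filter_upwards with z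
        simp only [indicator, mem_ofPred_eq]
      apply conv2_of_dominated (F := fun z => |e z - e' z|)
      · intro n
        exact (meas n).mul (me.sub ce.mem).aestronglyMeasurable
      · exact (me.sub ce.mem).abs
      · intro n
        filter_upwards with z
        split_ifs <;> simp
      · filter_upwards [he, h1, hl] with z z1 z2 z3
        rcases eq_or_lt_of_le z2 with h4 | h4
        · rw [z1 (by rw [h4]; ring)]
          simp
        · have ev : ∀ᶠ n in atTop, u z < φ (k n) z := z3.eventually (lt_mem_nhds h4)
          refine tendsto_const_nhds.congr' ?_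
          filter_upwards [ev] with n hn
          rw [if_neg (by linarith)]
          ring
    refine (q1.add q2).congr (fun n => ?_) (by filter_upwards with z; ring)
    filter_upwards with z
    split_ifs <;> ring
  have px := pd h.ma c2 (by filter_upwards [kz] with z hz h4 using (hz h4).1) (fun n => (hp (k n)).ma)
  have py := pd h.mb c3 (by filter_upwards [kz] with z hz h4 using (hz h4).2) (fun n => (hp (k n)).mb)
  refine closed (fun n => hm (k n)) ?_ ?_ ?_
  · exact ((Conv2.const h.mu).sub p0).congr (fun n => EventuallyEq.rfl)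
      (by filter_upwards with z; ring)
  · exact ((Conv2.const h.ma).sub px).congr (fun n => EventuallyEq.rfl)
      (by filter_upwards with z; ring)
  · exact ((Conv2.const h.mb).sub py).congr (fun n => EventuallyEq.rfl)
      (by filter_upwards with z; ring)

end H0

end Pool.Agent.Lib.MP_f46d6a
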