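import Pool.Agent.Lib.MP_f46d6a_h79.Grow1
import Pool.Agent.Lib.MP_f46d6a_h64.Positive

/-!
# The obstacle problem and positive parts of `C¹` functions
-/

set_option autoImplicit false

open MeasureTheory Set Filter Topology
open scoped ContDiff

namespace Pool.Agent.Lib.MP_f46d6a

open Pool.Agent.Lib.MP_dac83a

/-- positive part of a `C¹` function which is nonpositive off `B` -/
theorem H0.of_posPart {B : Set P} (hB : IsOpen B) {g : P → ℝ} (hg : IsTest1 univ g)
    (hpos : ∀ z, z ∉ B → g z ≤ 0) :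
    H0 B (fun z => max 0 (g z)) (fun z => if 0 < g z then dd ex g z else 0)
      (fun z => if 0 < g z then dd ey g z else 0) := by
  have hu := H0.of_C1 isOpen_univ hg
  set F : ℕ → ℝ → ℝ := fun n s => Lm (((n : ℝ) + 1) * s - 1) / ((n : ℝ) + 1) with hF
  have hpn : ∀ n : ℕ, (0 : ℝ) < (n : ℝ) + 1 := fun n => by positivity
  have hder : ∀ n s, HasDerivAt (F n) (Lm' (((n : ℝ) + 1) * s - 1)) s := by
    intro n s
    have h1 : HasDerivAt (fun s : ℝ => ((n : ℝ) + 1) * s - 1) ((n : ℝ) + 1) s := by
      simpa using ((hasDerivAt_id s).const_mul ((n : ℝ) + 1)).sub_const 1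
    have h2 := ((Lm_hasDeriv _).comp s h1).div_const ((n : ℝ) + 1)
    have hne : (n : ℝ) + 1 ≠ 0 := (hpn n).ne'
    refine h2.congr_deriv ?_
    field_simp
  have hd : ∀ n, deriv (F n) = fun s => Lm' (((n : ℝ) + 1) * s - 1) := fun n => by
    ext s; exact (hder n s).deriv
  have hC1 : ∀ n, ContDiff ℝ 1 (F n) := by
    intro n
    rw [contDiff_one_iff_deriv]
    refine ⟨fun s => (hder n s).differentiableAt, ?_⟩
    rw [hd]
    exact Lm'_cont.comp (by fun_prop)
  have hF0 : ∀ n s, s ≤ 0 → F n s = 0 := by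
    intro n s hs
    simp only [hF]
    have h1 : ((n : ℝ) + 1) * s ≤ 0 := mul_nonpos_of_nonneg_of_nonpos (hpn n).le hs
    rw [Lm_of_nonpos (by linarith), zero_div]
  have hb1 : ∀ n s, |deriv (F n) s| ≤ 1 := by
    intro n s; rw [hd]; exact Lm'_abs_le _
  have hclose : ∀ n s, |F n s - max 0 s| ≤ 2 / ((n : ℝ) + 1) := by
    intro n s
    have h1 := Lm_approx (((n : ℝ) + 1) * s)
    have h2 := Lm_lip (((n : ℝ) + 1) * s - 1) (((n : ℝ) + 1) * s)
    have h3 : max 0 s = max 0 (((n : ℝ) + 1) * s) / ((n : ℝ) + 1) := by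
      rw [eq_div_iff (hpn n).ne', max_mul_of_nonneg _ _ (hpn n).le, zero_mul, mul_comm]
    rw [h3]
    simp only [hF]
    rw [← sub_div, abs_div, abs_of_pos (hpn n)]
    apply div_le_div_of_nonneg_right _ (hpn n).le
    have h4 : |((n : ℝ) + 1) * s - 1 - ((n : ℝ) + 1) * s| ≤ 1 := by
      rw [show ((n : ℝ) + 1) * s - 1 - ((n : ℝ) + 1) * s = -1 by ring]
      norm_num
    calc |Lm (((n : ℝ) + 1) * s - 1) - max 0 (((n : ℝ) + 1) * s)|
        = |(Lm (((n : ℝ) + 1) * s - 1) - Lm (((n : ℝ) + 1) * s)) +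
          (Lm (((n : ℝ) + 1) * s) - max 0 (((n : ℝ) + 1) * s))| := by
          congr 1; ring
      _ ≤ 1 + 1 := (abs_add_le _ _).trans (add_le_add (h2.trans h4) h1)
      _ = 2 := by norm_num
  have t0 : Tendsto (fun n : ℕ => 2 / ((n : ℝ) + 1)) atTop (𝓝 0) := by
    have := (tendsto_one_div_add_atTop_nhds_zero_nat (𝕜 := ℝ)).const_mul 2
    rw [mul_zero] at this
    refine this.congr fun n => ?_
    rw [mul_one_div]
  have ht : ∀ n, IsTest1 B (fun z => F n (g z)) := by
    intro n
    have h1 := hg.comp (hC1 n) (hF0 n 0 le_rfl)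
    refine ⟨h1.smooth, h1.cpt, ?_⟩
    have hcl : IsClosed {z | 1 / ((n : ℝ) + 1) ≤ g z} :=
      isClosed_le continuous_const hg.smooth.continuous
    refine (closure_minimal (fun z hz => ?_) hcl).trans ?_
    · by_contra hc
      apply hz
      simp only [mem_ofPred_eq, not_le] at hc
      rw [lt_div_iff₀ (hpn n)] at hc
      simp only [hF]
      rw [Lm_of_nonpos (by linarith), zero_div]
    · intro z hz
      by_contra hc
      have h2 := hpos z hc
      simp only [mem_ofPred_eq] at hz
      have h3 : (0 : ℝ) < 1 / ((n : ℝ) + 1) := by positivity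
      linarith
  have hs := fun n => H0.of_C1 hB (ht n)
  have ed : ∀ v n z, dd v (fun z => F n (g z)) z = Lm' (((n : ℝ) + 1) * g z - 1) * dd v g z := by
    intro v n z
    rw [dd_comp ((hder n _).differentiableAt) (hg.smooth.differentiable (by norm_num) z), hd]
  refine H0.closed hs ?_ ?_ ?_
  · refine conv2_of_dominated (F := fun z => |g z|) (fun n => (hs n).mu.aestronglyMeasurable)
      hu.mu.abs (fun n => ?_) ?_
    · filter_upwards with z
      have := lipschitz_of_deriv_bound (hC1 n) (hb1 n) (g z) 0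
      rw [hF0 n 0 le_rfl] at this
      simpa using this
    · filter_upwards with z
      rw [tendsto_iff_norm_sub_tendsto_zero]
      exact squeeze_zero (fun n => norm_nonneg _) (fun n => hclose n (g z)) t0
  · refine conv2_of_dominated (F := fun z => |dd ex g z|) (fun n => (hs n).ma.aestronglyMeasurable)
      hu.ma.abs (fun n => ?_) ?_
    · filter_upwards with z
      rw [ed, abs_mul]
      have := Lm'_abs_le (((n : ℝ) + 1) * g z - 1)
      nlinarith [abs_nonneg (dd ex g z)]
    · filter_upwards with z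
      simp only [ed]
      by_cases hz : 0 < g z
      · rw [if_pos hz]
        have t1 : Tendsto (fun n : ℕ => ((n : ℝ) + 1) * g z - 1) atTop atTop := by
          apply tendsto_atTop_add_const_right
          apply Tendsto.atTop_mul_const hz
          exact tendsto_atTop_add_const_right _ _ tendsto_natCast_atTop_atTop
        refine tendsto_const_nhds.congr' ?_
        filter_upwards [t1.eventually_ge_atTop 1] with n hn
        rw [Lm'_of_one_le hn, one_mul]
      · rw [if_neg hz]
        refine tendsto_const_nhds.congr' ?_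
        filter_upwards with n
        have h1 : ((n : ℝ) + 1) * g z ≤ 0 :=
          mul_nonpos_of_nonneg_of_nonpos (hpn n).le (not_lt.1 hz)
        rw [Lm'_of_nonpos (by linarith), zero_mul]
  · refine conv2_of_dominated (F := fun z => |dd ey g z|) (fun n => (hs n).mb.aestronglyMeasurable)
      hu.mb.abs (fun n => ?_) ?_
    · filter_upwards with z
      rw [ed, abs_mul]
      have := Lm'_abs_le (((n : ℝ) + 1) * g z - 1)
      nlinarith [abs_nonneg (dd ey g z)]
    · filter_upwards with z
      simp only [ed]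
      by_cases hz : 0 < g z
      · rw [if_pos hz]
        have t1 : Tendsto (fun n : ℕ => ((n : ℝ) + 1) * g z - 1) atTop atTop := by
          apply tendsto_atTop_add_const_right
          apply Tendsto.atTop_mul_const hz
          exact tendsto_atTop_add_const_right _ _ tendsto_natCast_atTop_atTop
        refine tendsto_const_nhds.congr' ?_
        filter_upwards [t1.eventually_ge_atTop 1] with n hn
        rw [Lm'_of_one_le hn, one_mul]
      · rw [if_neg hz]
        refine tendsto_const_nhds.congr' ?_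
        filter_upwards with n
        have h1 : ((n : ℝ) + 1) * g z ≤ 0 :=
          mul_nonpos_of_nonneg_of_nonpos (hpn n).le (not_lt.1 hz)
        rw [Lm'_of_nonpos (by linarith), zero_mul]

open M1

/-- the obstacle problem: replace `ψ` in `B` by the least superharmonic function above `ψ` -/
theorem obstacle {Ω B : Set P} (hB : IsOpen B) (hBf : volume B ≠ ⊤) {ψ ψx ψy : P → ℝ}
    (h : H0 Ω ψ ψx ψy) :
    ∃ φ φx φy, H0 B φ φx φy ∧ (∀ᵐ z, 0 ≤ φ z) ∧
      (∀ η ηx ηy, H0 B η ηx ηy → (∀ᵐ z, 0 ≤ η z) →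
        0 ≤ ∫ z, ((ψx z + φx z) * ηx z + (ψy z + φy z) * ηy z)) ∧
      ∫ z, ((ψx z + φx z) * φx z + (ψy z + φy z) * φy z) = 0 := by
  set J : (P → ℝ) → (P → ℝ) → ℝ := fun a b => ∫ z, ((ψx z + a z) ^ 2 + (ψy z + b z) ^ 2) with hJ
  set S : Set ℝ := {q | ∃ u a b, H0 B u a b ∧ (∀ᵐ z, 0 ≤ u z) ∧ q = J a b} with hS
  have hJc : ∀ {u a b}, H0 B u a b → J a b = (∫ z, (ψx z ^ 2 + ψy z ^ 2)) +
      2 * (∫ z, (ψx z * a z + ψy z * b z)) + ∫ z, (a z ^ 2 + b z ^ 2) := by
    intro u a b hu
    have := en_comb h hu 1 1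
    simp only [one_mul] at this
    rw [hJ]
    simp only
    rw [this]
    ring
  have Sb : BddBelow S := by
    refine ⟨0, ?_⟩
    rintro q ⟨u, a, b, -, -, rfl⟩
    exact integral_nonneg fun z => by positivity
  have Sn : S.Nonempty := ⟨_, _, _, _, H0.zero, by filter_upwards with z; exact le_rfl, rfl⟩
  set m := sInf S with hm
  have key : ∀ n : ℕ, ∃ u a b, H0 B u a b ∧ (∀ᵐ z, 0 ≤ u z) ∧ J a b < m + 1 / ((n : ℝ) + 1) := by
    intro n
    have h1 : m < m + 1 / ((n : ℝ) + 1) := by
      have : 0 < 1 / ((n : ℝ) + 1) := by positivity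
      linarith
    obtain ⟨q, ⟨u, a, b, h2, h3, rfl⟩, hq⟩ := exists_lt_of_csInf_lt Sn h1
    exact ⟨u, a, b, h2, h3, hq⟩
  choose un an bn hn hp hj using key
  have mle : ∀ {u a b}, H0 B u a b → (∀ᵐ z, 0 ≤ u z) → m ≤ J a b := fun h1 h2 =>
    csInf_le Sb ⟨_, _, _, h1, h2, rfl⟩
  obtain ⟨φ, φx, φy, hφ, c1, c2, c3⟩ := complete_en hB hBf hn (by
    intro ε hε
    obtain ⟨N, hN⟩ := exists_nat_gt (4 / ε)
    refine ⟨N, fun i hi j hj' => ?_⟩
    have hs : ∀ m ≥ N, 1 / ((m : ℝ) + 1) ≤ ε / 4 := by
      intro m hm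
      rw [div_le_iff₀ (by positivity)]
      have h1 : (N : ℝ) ≤ m := by exact_mod_cast hm
      have h3 : 4 / ε < (m : ℝ) + 1 := by linarith
      rw [div_lt_iff₀ hε] at h3
      linarith
    have hmid := (hn i).comb (hn j) (1 / 2) (1 / 2)
    have h1 := mle hmid (by
      filter_upwards [hp i, hp j] with z z1 z2
      positivity)
    rw [hJc hmid, en_comb (hn i) (hn j)] at h1
    have e2 := en2_comb (hn i) (hn j) h (1 / 2) (1 / 2)
    have e3 : ∀ (a b : P → ℝ), ∫ z, (ψx z * a z + ψy z * b z) = ∫ z, (a z * ψx z + b z * ψy z) := by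
      intro a b
      congr 1; ext z; ring
    rw [e3, e2] at h1
    have b1 := hj i
    have b2 := hj j
    rw [hJc (hn i), e3] at b1
    rw [hJc (hn j), e3] at b2
    rw [en_sub (hn i) (hn j)]
    have := hs i hi
    have := hs j hj'
    linarith)
  have hφ0 : ∀ᵐ z, 0 ≤ φ z := by
    obtain ⟨k, hk, hl⟩ := c1.exists_ae
    filter_upwards [hl, ae_all_iff.2 hp] with z h1 h2
    exact ge_of_tendsto' h1 (fun n => h2 _)
  have hmin : J φx φy = m := by
    apply le_antisymm _ (mle hφ hφ0)
    have l1 : Tendsto (fun n => J (an n) (bn n)) atTop (𝓝 (J φx φy)) := by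
      rw [hJc hφ]
      refine Tendsto.congr (fun n => (hJc (hn n)).symm) ?_
      have t1 := (Conv2.const h.ma).integral_mul c2
      have t2 := (Conv2.const h.mb).integral_mul c3
      have t3 := en_lim hn hφ c2 c3
      have t4 : Tendsto (fun n => ∫ z, (ψx z * an n z + ψy z * bn n z)) atTop
          (𝓝 (∫ z, (ψx z * φx z + ψy z * φy z))) := by
        rw [integral_add (integrable_mul2 h.ma hφ.ma) (integrable_mul2 h.mb hφ.mb)]
        refine (t1.add t2).congr fun n => ?_
        rw [integral_add (integrable_mul2 h.ma (hn n).ma) (integrable_mul2 h.mb (hn n).mb)]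
      exact (tendsto_const_nhds.add (t4.const_mul 2)).add t3
    have l2 : Tendsto (fun n : ℕ => m + 1 / ((n : ℝ) + 1)) atTop (𝓝 (m + 0)) :=
      tendsto_const_nhds.add tendsto_one_div_add_atTop_nhds_zero_nat
    rw [add_zero] at l2
    exact le_of_tendsto_of_tendsto' l1 l2 (fun n => (hj n).le)
  -- first variation
  have var : ∀ {η ηx ηy : P → ℝ}, H0 B η ηx ηy → ∀ T : ℝ, 0 < T →
      (∀ t, 0 ≤ t → t ≤ T → ∀ᵐ z, 0 ≤ φ z + t * η z) →
      0 ≤ ∫ z, ((ψx z + φx z) * ηx z + (ψy z + φy z) * ηy z) := by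
    intro η ηx ηy hη T hT hpos
    set A := ∫ z, ((ψx z + φx z) * ηx z + (ψy z + φy z) * ηy z) with hA
    set E := ∫ z, (ηx z ^ 2 + ηy z ^ 2) with hE
    have hE0 : 0 ≤ E := integral_nonneg fun z => by positivity
    have hineq : ∀ t, 0 ≤ t → t ≤ T → 0 ≤ 2 * t * A + t ^ 2 * E := by
      intro t t0 t1
      have h1 : H0 B (fun z => φ z + t * η z) (fun z => φx z + t * ηx z) (fun z => φy z + t * ηy z) := by
        have := hφ.comb hη 1 t
        simpa using this
      have h2 := mle h1 (hpos t t0 t1)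
      rw [← hmin] at h2
      have hu : H0 univ (fun z => ψ z + φ z) (fun z => ψx z + φx z) (fun z => ψy z + φy z) :=
        (h.mono (subset_univ _)).add (hφ.mono (subset_univ _))
      have e1 := en_comb hu hη 1 t
      have e2 : J (fun z => φx z + t * ηx z) (fun z => φy z + t * ηy z) =
          ∫ z, ((1 * (ψx z + φx z) + t * ηx z) ^ 2 + (1 * (ψy z + φy z) + t * ηy z) ^ 2) := by
        simp only [hJ]
        congr 1; ext z; ring
      rw [e2, e1] at h2
      simp only [hJ] at h2
      rw [← hA, ← hE] at h2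
      linarith
    by_contra hneg
    push Not at hneg
    have h3 := hineq (min T (-A / (E + 1))) (by
      apply le_min hT.le
      apply div_nonneg (by linarith) (by linarith)) (min_le_left _ _)
    set t := min T (-A / (E + 1)) with ht
    have t0 : 0 < t := by
      apply lt_min hT
      apply div_pos (by linarith) (by linarith)
    have t1 : t ≤ -A / (E + 1) := min_le_right _ _
    rw [le_div_iff₀ (by linarith)] at t1
    have h4 : 0 ≤ 2 * A + t * E := by
      have : 2 * t * A + t ^ 2 * E = t * (2 * A + t * E) := by ring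
      rw [this] at h3
      exact nonneg_of_mul_nonneg_right h3 t0
    nlinarith
  refine ⟨φ, φx, φy, hφ, hφ0, fun η ηx ηy hη h0 => ?_, ?_⟩
  · apply var hη 1 one_pos
    intro t t0 _
    filter_upwards [hφ0, h0] with z z1 z2
    positivity
  · apply le_antisymm
    · have := var (hφ.smul (-1)) 1 one_pos (by
        intro t t0 t1
        filter_upwards [hφ0] with z z1
        nlinarith)
      have e : ∫ z, ((ψx z + φx z) * (-1 * φx z) + (ψy z + φy z) * (-1 * φy z)) =
          - ∫ z, ((ψx z + φx z) * φx z + (ψy z + φy z) * φy z) := by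
        rw [← integral_neg]
        congr 1; ext z; ring
      rw [e] at this
      linarith
    · apply var hφ 1 one_pos
      intro t t0 _
      filter_upwards [hφ0] with z z1
      positivity

end Pool.Agent.Lib.MP_f46d6a
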