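import Pool.Agent.Lib.MP_f46d6a_h79.Grow2

/-!
# Superharmonic elements of `H¹₀`: averages and a weak Harnack inequality on an annulus
-/

set_option autoImplicit false

open MeasureTheory Set Filter Topology
open scoped ContDiff

namespace Pool.Agent.Lib.MP_f46d6a

open Pool.Agent.Lib.MP_dac83a

/-! ## Euclidean discs -/

/-- Euclidean norm -/
noncomputable def en (z : P) : ℝ := √(r2 z)

theorem en_nonneg (z : P) : 0 ≤ en z := Real.sqrt_nonneg _
theorem en_sq (z : P) : en z ^ 2 = r2 z := Real.sq_sqrt (r2_nonneg z)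

theorem en_complex (z : P) : en z = ‖(⟨z.1, z.2⟩ : ℂ)‖ := by
  rw [Complex.norm_def, Complex.normSq_mk]
  unfold en r2
  congr 1
  ring

theorem en_add_le (a b : P) : en (a + b) ≤ en a + en b := by
  rw [en_complex, en_complex, en_complex]
  exact norm_add_le (⟨a.1, a.2⟩ : ℂ) ⟨b.1, b.2⟩

theorem en_neg (z : P) : en (-z) = en z := by unfold en; rw [r2_neg]

theorem en_sub_comm (a b : P) : en (a - b) = en (b - a) := by
  rw [← en_neg, neg_sub]

theorem en_tri (x y z : P) : en (x - z) ≤ en (x - y) + en (y - z) := by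
  have := en_add_le (x - y) (y - z)
  rwa [sub_add_sub_cancel] at this

theorem r2_lt_iff {z : P} {s : ℝ} (hs : 0 ≤ s) : r2 z < s ^ 2 ↔ en z < s := by
  rw [← en_sq]
  constructor
  · intro h
    exact lt_of_pow_lt_pow_left₀ 2 hs h
  · intro h
    exact pow_lt_pow_left₀ h (en_nonneg z) (by norm_num)

theorem r2_le_iff {z : P} {s : ℝ} (hs : 0 ≤ s) : r2 z ≤ s ^ 2 ↔ en z ≤ s := by
  rw [← en_sq]
  constructor
  · intro h
    exact (pow_le_pow_iff_left₀ (en_nonneg z) hs two_ne_zero).1 h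
  · intro h
    exact pow_le_pow_left₀ (en_nonneg z) h 2

/-- open Euclidean disc -/
def dsc (y : P) (s : ℝ) : Set P := {z | r2 (z - y) < s ^ 2}

theorem dsc_open (y : P) (s : ℝ) : IsOpen (dsc y s) :=
  isOpen_lt (r2_cont.comp (by fun_prop)) continuous_const

theorem dsc_sub (y : P) {s : ℝ} (hs : 0 ≤ s) : dsc y s ⊆ Metric.closedBall y s := by
  intro z hz
  rw [Metric.mem_closedBall, dist_eq_norm]
  have h1 : r2 (z - y) < s ^ 2 := hz
  have h2 := norm_sq_le_r2 (z - y)
  by_contra h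
  rw [not_le] at h
  nlinarith

theorem dsc_fin (y : P) {s : ℝ} (hs : 0 ≤ s) : volume (dsc y s) ≠ ⊤ :=
  ((measure_mono (dsc_sub y hs)).trans_lt (isCompact_closedBall y s).measure_lt_top).ne

/-! ## Superharmonic elements -/

/-- the field `(a, b)` is the gradient of a superharmonic function in `B` -/
def SupH (B : Set P) (a b : P → ℝ) : Prop := ∀ η ηx ηy, H0 B η ηx ηy → (∀ᵐ z, 0 ≤ η z) →
  0 ≤ ∫ z, (a z * ηx z + b z * ηy z)

theorem gkt_testB {ρ R : ℝ} (hρ : 0 < ρ) (hR : ρ ≤ R) {x : P} {B : Set P}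
    (hx : ∀ z, r2 (z - x) ≤ R ^ 2 → z ∈ B) : IsTest1 B (fun z => gk ρ R (z - x)) := by
  have h := gkt_test hρ hR x
  refine ⟨h.smooth, h.cpt, ?_⟩
  have hc : IsClosed {z : P | r2 (z - x) ≤ R ^ 2} :=
    isClosed_le (r2_cont.comp (by fun_prop)) continuous_const
  refine (closure_minimal (fun z hz => ?_) hc).trans (fun z hz => hx z hz)
  by_contra hcon
  simp only [mem_ofPred_eq, not_le] at hcon
  exact hz (gk_outer hρ hR hcon.le)

theorem SupH.av_mono {U B : Set P} (hB : IsOpen B) {f fx fy : P → ℝ} (h : H0 U f fx fy)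
    (hs : SupH B fx fy) {x : P} {ρ R : ℝ} (hρ : 0 < ρ) (hR : ρ ≤ R)
    (hx : ∀ z, r2 (z - x) ≤ R ^ 2 → z ∈ B) : av R f x ≤ av ρ f x := by
  have h1 := hs _ _ _ (H0.of_C1 hB (gkt_testB hρ hR hx))
    (by filter_upwards with z using gk_nonneg hρ hR _)
  have h2 := h.test_gk hρ hR x
  simp only [dd_trans] at h1
  rw [h2] at h1
  unfold av
  linarith

theorem SupH.av_le_ae {U B : Set P} (hB : IsOpen B) {f fx fy : P → ℝ} (h : H0 U f fx fy)
    (hs : SupH B fx fy) :
    ∀ᵐ x, ∀ R > 0, (∀ z, r2 (z - x) ≤ R ^ 2 → z ∈ B) → av R f x ≤ mu0 * f x := by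
  obtain ⟨k, hk, hlim⟩ := h.av_lim.1.exists_ae
  filter_upwards [hlim] with x hx R hR hsub
  refine ge_of_tendsto hx ?_
  have t : Tendsto (fun n => (1 / 2 : ℝ) ^ (k n)) atTop (𝓝 0) :=
    (tendsto_pow_atTop_nhds_zero_of_lt_one (by norm_num) (by norm_num)).comp hk.tendsto_atTop
  filter_upwards [t.eventually (ge_mem_nhds hR)] with n hn
  exact SupH.av_mono hB h hs (by positivity) hn hsub

theorem exp_num1 : (1.05 : ℝ) ≤ Real.exp (1 / 20) := by
  have := Real.add_one_le_exp (1 / 20 : ℝ)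
  linarith

theorem exp_num2 : Real.exp (-(1 / 20)) ≤ (0.9524 : ℝ) := by
  rw [Real.exp_neg]
  have h := exp_num1
  rw [inv_le_comm₀ (Real.exp_pos _) (by norm_num)]
  refine le_trans ?_ h
  norm_num

theorem exp_num3 : Real.exp (1 / 4) ≤ (1.3 : ℝ) := by
  have h1 : Real.exp (1 / 4) ^ 4 = Real.exp 1 := by
    rw [← Real.exp_nat_mul]; norm_num
  have h2 := Real.exp_one_lt_d9
  by_contra h
  rw [not_le] at h
  have h3 : (1.3 : ℝ) ^ 4 < Real.exp (1 / 4) ^ 4 := pow_lt_pow_left₀ h (by norm_num) (by norm_num)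
  rw [h1] at h3
  norm_num at h3
  linarith

/-- a superharmonic function above `ψ` is bounded below on an annulus by an average of `ψ` -/
theorem annulus_lower {U : Set P} {f fx fy ψ : P → ℝ} {y : P} {s : ℝ} (hs0 : 0 < s)
    (h : H0 U f fx fy) (hs : SupH (dsc y s) fx fy) (hψ : MemLp ψ 2 volume)
    (hψ0 : ∀ᵐ z, 0 ≤ ψ z) (hψf : ∀ᵐ z, ψ z ≤ f z) :
    ∀ᵐ x, Real.exp (-1) * (2 / 5 * s) ^ 2 ≤ r2 (x - y) → r2 (x - y) ≤ (2 / 5 * s) ^ 2 →
      av (s / 100) ψ y / 80000 ≤ mu0 * f x := by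
  filter_upwards [SupH.av_le_ae (dsc_open y s) h hs] with x hx h1 h2
  set d := en (x - y) with hd
  have d2 : d ≤ 2 / 5 * s := (r2_le_iff (by positivity)).1 h2
  have d1 : 0.23 * s ≤ d := by
    by_contra hc
    rw [not_le] at hc
    have h3 : r2 (x - y) < (0.23 * s) ^ 2 := (r2_lt_iff (by positivity)).2 hc
    have h4 := exp_neg_one_gt
    have h5 : 0 < s ^ 2 := by positivity
    nlinarith
  have d0 : 0 < d := lt_of_lt_of_le (by positivity) d1
  set R := d * Real.exp (1 / 4) with hR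
  have R0 : 0 < R := by positivity
  have R1 : R ≤ 0.52 * s := by
    have := exp_num3
    calc R ≤ d * 1.3 := by rw [hR]; gcongr
      _ ≤ (2 / 5 * s) * 1.3 := by gcongr
      _ = 0.52 * s := by ring
  have hsub : ∀ z, r2 (z - x) ≤ R ^ 2 → z ∈ dsc y s := by
    intro z hz
    have h3 : en (z - x) ≤ R := (r2_le_iff R0.le).1 hz
    show r2 (z - y) < s ^ 2
    rw [r2_lt_iff hs0.le]
    have := en_tri z x y
    linarith
  refine le_trans ?_ (hx R R0 hsub)
  have hs100 : 0 < s / 100 := by positivity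
  have e : av (s / 100) ψ y / 80000 = ∫ z, (ψ z * mker (s / 100) (z - y)) / 80000 := by
    unfold av
    rw [integral_div]
  rw [e]
  unfold av
  apply integral_mono_ae ((av_int hs100 hψ y).div_const _) (av_int R0 h.mu x)
  filter_upwards [hψ0, hψf] with z z1 z2
  have key : mker (s / 100) (z - y) / 80000 ≤ mker R (z - x) := by
    rcases le_total (r2 (z - y)) ((s / 100) ^ 2) with h3 | h3
    · have h4 : en (z - y) ≤ s / 100 := (r2_le_iff hs100.le).1 h3
      have t1 := en_tri z y x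
      have t2 := en_tri x z y
      rw [en_sub_comm y x] at t1
      rw [en_sub_comm x z] at t2
      have u1 : en (z - x) ≤ d * Real.exp (1 / 20) := by
        have := exp_num1
        have : d * 1.05 ≤ d * Real.exp (1 / 20) := by gcongr
        linarith
      have u2 : d * Real.exp (-(1 / 20)) ≤ en (z - x) := by
        have := exp_num2
        have : d * Real.exp (-(1 / 20)) ≤ d * 0.9524 := by gcongr
        linarith
      have e1 : R ^ 2 = d ^ 2 * Real.exp (1 / 2) := by
        rw [hR, mul_pow, ← Real.exp_nat_mul]; norm_num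
      have v1 : Real.exp (-(3 / 5)) * R ^ 2 ≤ r2 (z - x) := by
        rw [e1, ← en_sq]
        calc Real.exp (-(3 / 5)) * (d ^ 2 * Real.exp (1 / 2))
            = (d * Real.exp (-(1 / 20))) ^ 2 := by
              rw [mul_pow, ← Real.exp_nat_mul, mul_comm, mul_assoc, ← Real.exp_add]
              norm_num
          _ ≤ en (z - x) ^ 2 := by gcongr
      have v2 : r2 (z - x) ≤ Real.exp (-(2 / 5)) * R ^ 2 := by
        rw [e1, ← en_sq]
        calc en (z - x) ^ 2 ≤ (d * Real.exp (1 / 20)) ^ 2 := by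
              have := en_nonneg (z - x)
              gcongr
          _ = Real.exp (-(2 / 5)) * (d ^ 2 * Real.exp (1 / 2)) := by
              rw [mul_pow, ← Real.exp_nat_mul]
              rw [show Real.exp (-(2 / 5)) * (d ^ 2 * Real.exp (1 / 2)) =
                d ^ 2 * (Real.exp (-(2 / 5)) * Real.exp (1 / 2)) by ring, ← Real.exp_add]
              norm_num
      have w1 := mk_ge R0 v1 v2
      have w2 := mk_le hs100 (z - y)
      refine le_trans ?_ w1
      have hRs : R ^ 2 ≤ s ^ 2 := by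
        have : R ≤ s := by linarith
        gcongr
      have w3 : 3 / s ^ 2 ≤ 3 / R ^ 2 := by gcongr
      refine le_trans ?_ w3
      rw [div_le_div_iff₀ (by norm_num) (by positivity)]
      rw [le_div_iff₀ (by positivity)] at w2
      nlinarith
    · rw [mk_zero_out hs100 h3, zero_div]
      exact mk_nonneg _ _
  have hk := mk_nonneg R (z - x)
  calc ψ z * mker (s / 100) (z - y) / 80000 = ψ z * (mker (s / 100) (z - y) / 80000) := by ring
    _ ≤ ψ z * mker R (z - x) := by gcongr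
    _ ≤ f z * mker R (z - x) := by gcongr

end Pool.Agent.Lib.MP_f46d6a
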