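import Pool.Agent.Lib.MP_f46d6a_h79.Grow3

/-!
# The barrier: lower bound of superharmonic functions in a disc
-/

set_option autoImplicit false

open MeasureTheory Set Filter Topology
open scoped ContDiff

namespace Pool.Agent.Lib.MP_f46d6a

open Pool.Agent.Lib.MP_dac83a

theorem H0.of_posPart_level {B : Set P} (hB : IsOpen B) {g : P → ℝ} (hg : IsTest1 univ g) {l : ℝ}
    (hl : 0 ≤ l) (hpos : ∀ z, z ∉ B → g z ≤ l) :
    ∃ a b, H0 B (fun z => max 0 (g z - l)) a b := by
  obtain ⟨χ, hχ, χ1, χ2, χ3⟩ := exists_cutoff hg.cpt.isCompact isOpen_univ (subset_univ _)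
  have ht : IsTest1 univ (fun z => g z - l * χ z) := by
    refine ⟨hg.smooth.sub (contDiff_const.mul (hχ.smooth.of_le one_le_inf)), ?_, subset_univ _⟩
    exact hg.cpt.sub hχ.cpt.mul_left
  have h1 := H0.of_posPart hB ht (fun z hz => by
    by_cases hc : g z = 0
    · have := mul_nonneg hl (χ2 z)
      rw [hc]; linarith
    · rw [χ1 z (subset_tsupport _ hc)]
      have := hpos z hz
      linarith)
  refine ⟨_, _, h1.congr ?_ EventuallyEq.rfl EventuallyEq.rfl⟩
  filter_upwards with z
  by_cases hc : g z = 0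
  · have := mul_nonneg hl (χ2 z)
    rw [hc, max_eq_left (by linarith), max_eq_left (by linarith)]
  · rw [χ1 z (subset_tsupport _ hc), mul_one]

section bar

variable {s : ℝ} (hs : 0 < s)
include hs

theorem bar_aux : 0 < 2 / 5 * s ∧ 2 / 5 * s ≤ 2 * s := ⟨by positivity, by linarith⟩

theorem bar_le (z : P) : gk (2 / 5 * s) (2 * s) z ≤ 4 := by
  have h := gk_le (bar_aux hs).1 (bar_aux hs).2 z
  have e : 2 * s / (2 / 5 * s) = 5 := by field_simp
  rw [e] at h
  have h5 : Real.log 5 ≤ 2 := by
    rw [Real.log_le_iff_le_exp (by norm_num)]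
    have h1 : Real.exp 2 = Real.exp 1 * Real.exp 1 := by rw [← Real.exp_add]; norm_num
    have h2 := Real.exp_one_gt_d9
    rw [h1]
    nlinarith
  linarith

theorem bar_out {z : P} (hz : s ^ 2 ≤ r2 z) :
    gk (2 / 5 * s) (2 * s) z ≤ Lm (2 * Real.log 2) := by
  have hp : 0 < r2 z := lt_of_lt_of_le (by positivity) hz
  have h1 := Real.log_le_log (by positivity) hz
  rw [Real.log_pow] at h1
  push_cast at h1
  unfold gk
  rw [if_neg hp.ne']
  have h2 : 2 * Real.log (2 * s) - Real.log (r2 z) ≤ 2 * Real.log 2 := by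
    rw [Real.log_mul (by norm_num) hs.ne']
    linarith
  have h3 := Lm_mono h2
  have h4 := Lm_nonneg (2 * Real.log (2 / 5 * s) - Real.log (r2 z))
  linarith

omit hs in
theorem log52 : (1 : ℝ) ≤ 2 * Real.log (5 / 2) := by
  have h : (1 / 2 : ℝ) ≤ Real.log (5 / 2) := by
    rw [Real.le_log_iff_exp_le (by norm_num)]
    have h1 : Real.exp (1 / 2) ^ 2 = Real.exp 1 := by rw [← Real.exp_nat_mul]; norm_num
    have h2 := Real.exp_one_lt_d9
    by_contra hc
    rw [not_le] at hc
    have h3 : (5 / 2 : ℝ) ^ 2 < Real.exp (1 / 2) ^ 2 := pow_lt_pow_left₀ hc (by norm_num) (by norm_num)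
    rw [h1] at h3
    norm_num at h3
    linarith
  linarith

theorem bar_in {z : P} (hz : r2 z < s ^ 2) :
    Lm (2 * Real.log 2) + (1 - r2 z / s ^ 2) ≤ gk (2 / 5 * s) (2 * s) z := by
  have l52 := log52
  have e52 : Real.log (2 / 5 * s) = Real.log s - Real.log (5 / 2) := by
    rw [Real.log_mul (by norm_num) hs.ne', show (2 / 5 : ℝ) = (5 / 2)⁻¹ by norm_num, Real.log_inv]
    ring
  have e2 : Real.log (2 * s) = Real.log 2 + Real.log s := Real.log_mul (by norm_num) hs.ne'
  have hl2 : (1 : ℝ) ≤ 2 * Real.log 2 := by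
    have := Real.log_two_gt_d9
    linarith
  rcases eq_or_lt_of_le (r2_nonneg z) with h0 | hp
  · have hz0 : z = 0 := r2_eq_zero.1 h0.symm
    rw [← h0]
    have h1 : gk (2 / 5 * s) (2 * s) z = 2 * Real.log (2 * s / (2 / 5 * s)) := by
      apply gk_inner (bar_aux hs).1 (bar_aux hs).2
      rw [← h0]; positivity
    rw [h1, log_ratio (bar_aux hs).1 (by positivity), e52, e2]
    have h2 := Lm_le (show 0 ≤ 2 * Real.log 2 by linarith)
    simp only [zero_div, sub_zero]
    linarith
  · have h1 := Real.log_lt_log hp hz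
    rw [Real.log_pow] at h1
    push_cast at h1
    set τ := 2 * Real.log s - Real.log (r2 z) with hτ
    have τ0 : 0 < τ := by linarith
    have e : gk (2 / 5 * s) (2 * s) z = Lm (τ + 2 * Real.log 2) - Lm (τ - 2 * Real.log (5 / 2)) := by
      unfold gk
      rw [if_neg hp.ne', e52, e2]
      congr 2 <;> ring
    have h3 : Lm (τ + 2 * Real.log 2) = Lm (2 * Real.log 2) + τ := by
      have := Lm_eq_of_one_le (s := τ + 2 * Real.log 2) (t := 2 * Real.log 2) (by linarith) hl2
      linarith
    have h4 : 1 - r2 z / s ^ 2 ≤ τ ∧ 1 - r2 z / s ^ 2 ≤ 1 := by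
      have hs2 : 0 < s ^ 2 := by positivity
      constructor
      · have h5 : Real.exp (-τ) = r2 z / s ^ 2 := by
          rw [hτ, neg_sub, Real.exp_sub, Real.exp_log hp]
          congr 1
          rw [show 2 * Real.log s = Real.log (s ^ 2) by rw [Real.log_pow]; norm_num,
            Real.exp_log hs2]
        rw [← h5]
        have := Real.add_one_le_exp (-τ)
        linarith
      · have : 0 ≤ r2 z / s ^ 2 := div_nonneg hp.le hs2.le
        linarith
    rw [e, h3]
    rcases le_total τ (2 * Real.log (5 / 2)) with h5 | h5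
    · rw [Lm_of_nonpos (show τ - 2 * Real.log (5 / 2) ≤ 0 by linarith)]
      linarith [h4.1]
    · have h6 := Lm_le (show 0 ≤ τ - 2 * Real.log (5 / 2) by linarith)
      linarith [h4.2]

end bar

/-- lower bound of a superharmonic function above `ψ` -/
theorem disc_lower {U : Set P} {f fx fy ψ : P → ℝ} {y : P} {s : ℝ} (hs0 : 0 < s)
    (h : H0 U f fx fy) (hs : SupH (dsc y s) fx fy) (hψ : MemLp ψ 2 volume)
    (hψ0 : ∀ᵐ z, 0 ≤ ψ z) (hψf : ∀ᵐ z, ψ z ≤ f z) :
    ∀ᵐ z, z ∈ dsc y s →
      av (s / 100) ψ y / (320000 * mu0) * (1 - r2 (z - y) / s ^ 2) ≤ f z := by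
  set κ := av (s / 100) ψ y / (320000 * mu0) with hκ
  have hm := mu0_pos
  have κ0 : 0 ≤ κ := by
    apply div_nonneg _ (by positivity)
    apply integral_nonneg_of_ae
    filter_upwards [hψ0] with z hz
    exact mul_nonneg hz (mk_nonneg _ _)
  have ha := bar_aux hs0
  set g : P → ℝ := fun z => gk (2 / 5 * s) (2 * s) (z - y) with hg
  set c1 := Lm (2 * Real.log 2) with hc1
  have c10 : 0 ≤ c1 := Lm_nonneg _
  have hgt : IsTest1 univ g := gkt_test ha.1 ha.2 y
  have hgH := H0.of_C1 isOpen_univ hgt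
  obtain ⟨qa, qb, hq⟩ := H0.of_posPart_level (dsc_open y s) hgt c10 (fun z hz => by
    have h1 : ¬ (r2 (z - y) < s ^ 2) := hz
    exact bar_out hs0 (not_lt.1 h1))
  have hu := h.mono (subset_univ U)
  have hv := H0.posPart isOpen_univ ((hgH.smul κ).sub hu) (l := κ * c1) (mul_nonneg κ0 c10)
  have hvB := H0.dominated (dsc_open y s) hv (hq.smul κ)
    (by filter_upwards with z using le_max_left _ _)
    (by
      filter_upwards [hψ0, hψf] with z z1 z2
      apply max_le
      · exact mul_nonneg κ0 (le_max_left _ _)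
      · have : κ * (g z - c1) ≤ κ * max 0 (g z - c1) := by
          gcongr
          exact le_max_right _ _
        linarith)
  have ann := annulus_lower hs0 h hs hψ hψ0 hψf
  set v : P → ℝ := fun z => max 0 (κ * g z - f z - κ * c1) with hvdef
  set vx : P → ℝ := fun z => if κ * c1 < κ * g z - f z then κ * dd ex g z - fx z else 0 with hvx
  set vy : P → ℝ := fun z => if κ * c1 < κ * g z - f z then κ * dd ey g z - fy z else 0 with hvy
  have hvB' : H0 (dsc y s) v vx vy := hvB
  have i1 := hs _ _ _ hvB' (by filter_upwards with z using le_max_left _ _)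
  have i2 : ∫ z, (vx z * dd ex g z + vy z * dd ey g z) ≤ 0 := by
    have t := hvB'.test_gk ha.1 ha.2 y
    have e : ∀ (w : P), dd w g = fun z => dd w (gk (2 / 5 * s) (2 * s)) (z - y) := by
      intro w; ext z; exact dd_trans _ _ _ _
    rw [e, e, t]
    have z1 : ∫ z, v z * mker (2 / 5 * s) (z - y) = 0 := by
      rw [integral_eq_zero_of_ae]
      filter_upwards [ann] with z hz
      simp only [Pi.zero_apply]
      by_cases h1 : r2 (z - y) ≤ (2 / 5 * s) ^ 2
      · by_cases h2 : Real.exp (-1) * (2 / 5 * s) ^ 2 ≤ r2 (z - y)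
        · have h3 := hz h2 h1
          have h4 : 4 * κ ≤ f z := by
            rw [hκ]
            rw [div_le_iff₀ (by norm_num)] at h3
            rw [mul_div_assoc', div_le_iff₀ (by positivity)]
            nlinarith
          have h5 := bar_le hs0 (z - y)
          have h6 : v z = 0 := by
            rw [hvdef]
            apply max_eq_left
            have : κ * g z ≤ κ * 4 := by gcongr
            have : 0 ≤ κ * c1 := mul_nonneg κ0 c10
            linarith
          rw [h6, zero_mul]
        · rw [mk_zero_in ha.1 (not_le.1 h2).le, mul_zero]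
      · rw [mk_zero_out ha.1 (not_le.1 h1).le, mul_zero]
    have z2 : 0 ≤ ∫ z, v z * mker (2 * s) (z - y) :=
      integral_nonneg fun z => mul_nonneg (le_max_left _ _) (mk_nonneg _ _)
    rw [z1]
    linarith
  have i3 : ∫ z, (vx z ^ 2 + vy z ^ 2) = κ * (∫ z, (vx z * dd ex g z + vy z * dd ey g z)) -
      ∫ z, (fx z * vx z + fy z * vy z) := by
    rw [← integral_const_mul, ← integral_sub]
    · congr 1
      ext z
      simp only [hvx, hvy]
      split_ifs
      · ring
      · ring
    · exact (M1.int_en2 hvB' hgH).const_mul κ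
    · exact M1.int_en2 h hvB'
  have i4 : ∫ z, (vx z ^ 2 + vy z ^ 2) ≤ 0 := by
    rw [i3]
    have := mul_nonpos_of_nonneg_of_nonpos κ0 i2
    linarith
  have i5 := hvB'.poinc (dsc_open y s) (dsc_fin y hs0.le)
  have i6 : ∫ z, v z ^ 2 = 0 := by
    apply le_antisymm
    · have : vol (dsc y s) * ∫ z, (vx z ^ 2 + vy z ^ 2) ≤ 0 :=
        mul_nonpos_of_nonneg_of_nonpos ENNReal.toReal_nonneg i4
      linarith
    · exact integral_nonneg fun z => sq_nonneg _
  have i7 : (fun z => v z ^ 2) =ᵐ[volume] 0 :=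
    (integral_eq_zero_iff_of_nonneg (fun z => sq_nonneg _) hvB'.mu.integrable_sq).1 i6
  filter_upwards [i7] with z hz hzB
  have h1 : v z = 0 := by
    have : v z ^ 2 = 0 := hz
    exact pow_eq_zero_iff (two_ne_zero) |>.1 this
  have h2 : κ * g z - f z - κ * c1 ≤ 0 := by
    rw [← h1]; exact le_max_right _ _
  have h3 := bar_in hs0 (show r2 (z - y) < s ^ 2 from hzB)
  have h4 : κ * (c1 + (1 - r2 (z - y) / s ^ 2)) ≤ κ * g z := by gcongr
  linarith

end Pool.Agent.Lib.MP_f46d6a
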