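import Pool.Agent.Lib.MP_f46d6a_h79.Perf4

/-!
# Perforated squares: `λ₁ T` is almost the area
-/

set_option autoImplicit false

open MeasureTheory Set Filter Topology
open scoped ContDiff

namespace Pool.Agent.Lib.MP_f46d6a

open Pool.Agent.Lib.MP_dac83a

namespace Perf

theorem tendsto_ratio : Tendsto (fun L : ℝ => L / (L - 3)) atTop (𝓝 1) := by
  have h1 : Tendsto (fun L : ℝ => L - 3) atTop atTop :=
    tendsto_atTop_add_const_right _ _ tendsto_id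
  have h2 : Tendsto (fun L : ℝ => 1 + 3 / (L - 3)) atTop (𝓝 (1 + 0)) :=
    tendsto_const_nhds.add (tendsto_const_nhds.div_atTop h1)
  rw [add_zero] at h2
  refine h2.congr' ?_
  filter_upwards [eventually_gt_atTop 3] with L hL
  have : L - 3 ≠ 0 := by
    have : 0 < L - 3 := by linarith
    exact this.ne'
  field_simp
  ring

theorem tendsto_Ek : Tendsto (fun L : ℝ => L * mu0 / (L - 3) ^ 2) atTop (𝓝 0) := by
  have h1 : Tendsto (fun L : ℝ => L - 3) atTop atTop :=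
    tendsto_atTop_add_const_right _ _ tendsto_id
  have h2 : Tendsto (fun L : ℝ => (L / (L - 3)) * (mu0 / (L - 3))) atTop (𝓝 (1 * 0)) :=
    tendsto_ratio.mul (tendsto_const_nhds.div_atTop h1)
  rw [mul_zero] at h2
  refine h2.congr (fun L => ?_)
  rw [div_mul_div_comm, pow_two]

/-- limit quotient -/
noncomputable def fL (ε L : ℝ) : ℝ :=
  (2 * (1 - 2 * √(2 * (L * mu0 / (L - 3) ^ 2))) - (1 + ε) * (L / (L - 3)) ^ 2) /
    ((1 + ε) + (1 / 9 + (1 + 1 / ε) * (KK / 9) / mu0 ^ 2) * (mu0 / L))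

theorem tendsto_fL {ε : ℝ} (hε : 0 < ε) : Tendsto (fL ε) atTop (𝓝 ((1 - ε) / (1 + ε))) := by
  have h1 : Tendsto (fun L : ℝ => √(2 * (L * mu0 / (L - 3) ^ 2))) atTop (𝓝 0) := by
    have := (Real.continuous_sqrt.tendsto (2 * 0)).comp (tendsto_Ek.const_mul 2)
    rw [mul_zero, Real.sqrt_zero] at this
    exact this
  have h2 : Tendsto (fun L : ℝ => 2 * (1 - 2 * √(2 * (L * mu0 / (L - 3) ^ 2))) -
      (1 + ε) * (L / (L - 3)) ^ 2) atTop (𝓝 (2 * (1 - 2 * 0) - (1 + ε) * 1 ^ 2)) :=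
    ((tendsto_const_nhds.sub (h1.const_mul 2)).const_mul 2).sub ((tendsto_ratio.pow 2).const_mul _)
  have h3 : Tendsto (fun L : ℝ => (1 + ε) + (1 / 9 + (1 + 1 / ε) * (KK / 9) / mu0 ^ 2) * (mu0 / L))
      atTop (𝓝 ((1 + ε) + (1 / 9 + (1 + 1 / ε) * (KK / 9) / mu0 ^ 2) * 0)) :=
    tendsto_const_nhds.add ((tendsto_const_nhds.div_atTop tendsto_id).const_mul _)
  have h4 := h2.div h3 (by rw [mul_zero, add_zero]; positivity)
  have e : (2 * (1 - 2 * 0) - (1 + ε) * 1 ^ 2) /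
      ((1 + ε) + (1 / 9 + (1 + 1 / ε) * (KK / 9) / mu0 ^ 2) * 0) = (1 - ε) / (1 + ε) := by
    rw [mul_zero, mul_zero, add_zero]
    congr 1
    ring
  rw [e] at h4
  exact h4

/-- quotient at finite size -/
noncomputable def gN (ε L : ℝ) (N : ℕ) : ℝ :=
  2 * (L / mu0) * ((1 - 3 / 2 * (1 / (N : ℝ))) ^ 2 - 2 * √(2 * (L * mu0 / (L - 3) ^ 2))) -
    (L / mu0) ^ 2 * ((1 + 1 / ε) * 8 * (1 / (N : ℝ)) + (1 + ε) * (L * mu0 / (L - 3) ^ 2))

theorem tendsto_gN (ε : ℝ) {L : ℝ} (hε : 0 < ε) (hL : 4 ≤ L) :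
    Tendsto (fun N => gN ε L N / CQ ε L) atTop (𝓝 (fL ε L)) := by
  have h0 : Tendsto (fun N : ℕ => 1 / (N : ℝ)) atTop (𝓝 0) := tendsto_one_div_atTop_nhds_zero_nat
  have h1 : Tendsto (fun N => gN ε L N) atTop (𝓝
      (2 * (L / mu0) * ((1 - 3 / 2 * 0) ^ 2 - 2 * √(2 * (L * mu0 / (L - 3) ^ 2))) -
        (L / mu0) ^ 2 * ((1 + 1 / ε) * 8 * 0 + (1 + ε) * (L * mu0 / (L - 3) ^ 2)))) := by
    unfold gN
    exact (((((h0.const_mul (3 / 2)).const_sub 1).pow 2).sub_const _).const_mul _).sub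
      (((h0.const_mul _).add_const _).const_mul _)
  have h2 := h1.div_const (CQ ε L)
  have e : (2 * (L / mu0) * ((1 - 3 / 2 * 0) ^ 2 - 2 * √(2 * (L * mu0 / (L - 3) ^ 2))) -
        (L / mu0) ^ 2 * ((1 + 1 / ε) * 8 * 0 + (1 + ε) * (L * mu0 / (L - 3) ^ 2))) / CQ ε L =
      fL ε L := by
    have hm := mu0_pos
    have hK := KK_nonneg
    have hL0 : 0 < L := by linarith
    have hL3 : 0 < L - 3 := by linarith
    have hD : 0 < (1 + ε) + (1 / 9 + (1 + 1 / ε) * (KK / 9) / mu0 ^ 2) * (mu0 / L) := by positivity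
    have hC := CQ_pos hε hL0.le
    have eC : CQ ε L = (L / mu0) *
        ((1 + ε) + (1 / 9 + (1 + 1 / ε) * (KK / 9) / mu0 ^ 2) * (mu0 / L)) := by
      unfold CQ
      field_simp
      ring
    have eN : 2 * (L / mu0) * ((1 - 3 / 2 * 0) ^ 2 - 2 * √(2 * (L * mu0 / (L - 3) ^ 2))) -
        (L / mu0) ^ 2 * ((1 + 1 / ε) * 8 * 0 + (1 + ε) * (L * mu0 / (L - 3) ^ 2)) =
        (L / mu0) * (2 * (1 - 2 * √(2 * (L * mu0 / (L - 3) ^ 2))) - (1 + ε) * (L / (L - 3)) ^ 2) := by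
      have : (L / mu0) ^ 2 * ((1 + 1 / ε) * 8 * 0 + (1 + ε) * (L * mu0 / (L - 3) ^ 2)) =
          (L / mu0) * ((1 + ε) * (L / (L - 3)) ^ 2) := by
        rw [mul_zero, zero_add]
        field_simp
      rw [this]
      ring
    rw [eC, eN]
    unfold fL
    rw [mul_div_mul_left]
    positivity
  rw [e] at h2
  exact h2

theorem prod_lower {ε L : ℝ} (hε : 0 < ε) (hL : 4 ≤ L) {N : ℕ} (hN : 2 ≤ N) {κ : ℝ} (hκ : 0 ≤ κ)
    (h : κ ≤ gN ε L N / CQ ε L) : κ * (volume (PU L N)).toReal ≤ lamP (PU L N) * torP (PU L N) := by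
  have hN0 : (0 : ℝ) < N := by
    have : 0 < N := by omega
    exact_mod_cast this
  have hC := CQ_pos hε (show 0 ≤ L by linarith)
  have hm := mu0_pos
  have h1 := lamP_lower79 (show 1 < L by linarith) (show 0 < N by omega) hε
  have h2 := torP_lower79 hL N hN hε (s := L / mu0) (by positivity)
  have e : 2 * (L / mu0) * ((2 * (N : ℝ) - 3) ^ 2 -
      4 * (N : ℝ) ^ 2 * (2 * √(2 * (L * mu0 / (L - 3) ^ 2)))) -
      (L / mu0) ^ 2 * ((1 + 1 / ε) * (32 * (N : ℝ)) +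
        (1 + ε) * (4 * (N : ℝ) ^ 2 * (L * mu0 / (L - 3) ^ 2))) = gN ε L N * (4 * (N : ℝ) ^ 2) := by
    unfold gN
    have e1 : (2 * (N : ℝ) - 3) ^ 2 = (1 - 3 / 2 * (1 / (N : ℝ))) ^ 2 * (4 * (N : ℝ) ^ 2) := by
      field_simp
      ring
    have e2 : (1 + 1 / ε) * (32 * (N : ℝ)) = (1 + 1 / ε) * 8 * (1 / (N : ℝ)) * (4 * (N : ℝ) ^ 2) := by
      field_simp
      ring
    rw [e1, e2]
    ring
  rw [e] at h2
  rw [le_div_iff₀ hC] at h
  have g0 : 0 ≤ gN ε L N := le_trans (by positivity) h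
  have hV := PU_vol L N
  calc κ * (volume (PU L N)).toReal ≤ κ * (4 * (N : ℝ) ^ 2) := by gcongr
    _ = 1 / CQ ε L * ((κ * CQ ε L) * (4 * (N : ℝ) ^ 2)) := by field_simp
    _ ≤ 1 / CQ ε L * (gN ε L N * (4 * (N : ℝ) ^ 2)) := by gcongr
    _ ≤ lamP (PU L N) * torP (PU L N) := by
        apply mul_le_mul h1 h2 (by positivity)
        exact le_trans (by positivity) h1

end Perf

/-- perforated squares nearly saturate Pólya's inequality -/
theorem perforated (δ : ℝ) (hδ : 0 < δ) : ∃ U : Set P, IsOpen U ∧ U.Nonempty ∧ volume U ≠ ⊤ ∧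
    (1 - δ) * (volume U).toReal ≤ lamP U * torP U := by
  set d := min δ 1 with hd
  have d0 : 0 < d := lt_min hδ one_pos
  have d1 : d ≤ 1 := min_le_right _ _
  have dδ : d ≤ δ := min_le_left _ _
  set ε := d / 4 with hε
  have ε0 : 0 < ε := by positivity
  have hlim : 1 - d < (1 - ε) / (1 + ε) := by
    rw [lt_div_iff₀ (by positivity), hε]
    nlinarith
  obtain ⟨L, hL1, hL2⟩ := (((Perf.tendsto_fL ε0).eventually (lt_mem_nhds hlim)).and
    (eventually_ge_atTop (4 : ℝ))).exists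
  obtain ⟨N, hN1, hN2⟩ := (((Perf.tendsto_gN ε ε0 hL2).eventually (lt_mem_nhds hL1)).and
    (eventually_ge_atTop 2)).exists
  refine ⟨Perf.PU L N, Perf.PU_open (by linarith) N, Perf.PU_ne (by linarith) (by omega),
    Perf.PU_fin L N, ?_⟩
  refine le_trans ?_ (Perf.prod_lower ε0 hL2 hN2 (by linarith) hN1.le)
  gcongr

end Pool.Agent.Lib.MP_f46d6a
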