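import Pool.Agent.Lib.MP_f46d6a.Defs

/-!
# Perforated squares: the lower bound of the first eigenvalue
-/

set_option autoImplicit false

open MeasureTheory Set Filter Topology
open scoped ContDiff

namespace Pool.Agent.Lib.MP_f46d6a

open Pool.Agent.Lib.MP_dac83a

namespace Perf

/-- inner radius -/
noncomputable def rh (L : ℝ) : ℝ := 1 / 2 * Real.exp (-L / 2)

theorem rh_pos (L : ℝ) : 0 < rh L := by unfold rh; positivity

theorem rh_le {L : ℝ} (hL : 0 ≤ L) : rh L ≤ 1 / 2 := by
  unfold rh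
  have : Real.exp (-L / 2) ≤ 1 := Real.exp_le_one_iff.2 (by linarith)
  linarith

theorem rh_log (L : ℝ) : 2 * Real.log ((1 / 2) / rh L) = L := by
  have : (1 / 2) / rh L = Real.exp (L / 2) := by
    unfold rh
    rw [show -L / 2 = -(L / 2) by ring, Real.exp_neg]
    field_simp
  rw [this, Real.log_exp]; ring

/-- the hole profile -/
noncomputable def G (L : ℝ) (z : P) : ℝ := gk (rh L) (1 / 2) z

section G

variable {L : ℝ} (hL : 0 ≤ L)
include hL

theorem G_contDiff : ContDiff ℝ 2 (G L) := gk_contDiff (rh_pos L) (rh_le hL)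
theorem G_cont : Continuous (G L) := (G_contDiff hL).continuous
theorem G_nonneg (z : P) : 0 ≤ G L z := gk_nonneg (rh_pos L) (rh_le hL) z
theorem G_le (z : P) : G L z ≤ L := by
  have := gk_le (rh_pos L) (rh_le hL) z
  rwa [rh_log] at this
theorem G_out {z : P} (hz : 1 / 4 ≤ r2 z) : G L z = 0 :=
  gk_outer (rh_pos L) (rh_le hL) (by norm_num; linarith)
theorem G_in {z : P} (hz : r2 z ≤ rh L ^ 2) : L - 1 ≤ G L z := by
  have := gk_lower (rh_pos L) (rh_le hL) hz
  rwa [rh_log] at this
theorem G_diffAt (z : P) : DifferentiableAt ℝ (G L) z :=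
  (G_contDiff hL).differentiable (by norm_num) z

theorem dd_G_zero {z : P} (hz : G L z = 0) (v : P) : dd v (G L) z = 0 := by
  have : IsLocalMin (G L) z := by
    apply Eventually.of_forall
    intro w
    rw [hz]
    exact G_nonneg hL w
  simp only [dd, this.fderiv_eq_zero]
  rfl

theorem dd_G_out {z : P} (hz : 1 / 4 ≤ r2 z) (v : P) : dd v (G L) z = 0 :=
  dd_G_zero hL (G_out hL hz) v

theorem G_energy : ∫ z, (dd ex (G L) z ^ 2 + dd ey (G L) z ^ 2) ≤ L * mu0 := by
  have := gk_energy (rh_pos L) (rh_le hL)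
  rwa [rh_log] at this

theorem G_int_en : Integrable (fun z => dd ex (G L) z ^ 2 + dd ey (G L) z ^ 2) :=
  (H0.of_C1 isOpen_univ (gk_test (rh_pos L) (rh_le hL))).int_en

end G

/-- `L²` Cauchy–Schwarz for two pairs on a measure -/
theorem cs2 {α : Type} [MeasurableSpace α] {ν : Measure α} {f g f' g' : α → ℝ}
    (hf : MemLp f 2 ν) (hg : MemLp g 2 ν) (hf' : MemLp f' 2 ν) (hg' : MemLp g' 2 ν) :
    (∫ a, (f a * f' a + g a * g' a) ∂ν) ^ 2 ≤
      (∫ a, (f a ^ 2 + g a ^ 2) ∂ν) * ∫ a, (f' a ^ 2 + g' a ^ 2) ∂ν := by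
  set A := ∫ a, (f a ^ 2 + g a ^ 2) ∂ν with hA
  set B := ∫ a, (f' a ^ 2 + g' a ^ 2) ∂ν with hB
  set C := ∫ a, (f a * f' a + g a * g' a) ∂ν with hC
  have iA : Integrable (fun a => f a ^ 2 + g a ^ 2) ν := hf.integrable_sq.add hg.integrable_sq
  have iB : Integrable (fun a => f' a ^ 2 + g' a ^ 2) ν := hf'.integrable_sq.add hg'.integrable_sq
  have iC : Integrable (fun a => f a * f' a + g a * g' a) ν :=
    (integrable_mul2 hf hf').add (integrable_mul2 hg hg')
  have nA : 0 ≤ A := integral_nonneg fun a => by positivity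
  have nB : 0 ≤ B := integral_nonneg fun a => by positivity
  have key : ∀ t : ℝ, 0 ≤ t ^ 2 * A - 2 * t * C + B := by
    intro t
    have e : t ^ 2 * A - 2 * t * C + B =
        ∫ a, (t ^ 2 * (f a ^ 2 + g a ^ 2) - 2 * t * (f a * f' a + g a * g' a)
          + (f' a ^ 2 + g' a ^ 2)) ∂ν := by
      rw [integral_add (f := fun a => t ^ 2 * (f a ^ 2 + g a ^ 2) - 2 * t * (f a * f' a + g a * g' a))
        ((iA.const_mul _).sub (iC.const_mul _)) iB,
        integral_sub (iA.const_mul _) (iC.const_mul _), integral_const_mul, integral_const_mul]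
    rw [e]
    apply integral_nonneg
    intro a
    show 0 ≤ t ^ 2 * (f a ^ 2 + g a ^ 2) - 2 * t * (f a * f' a + g a * g' a) + (f' a ^ 2 + g' a ^ 2)
    nlinarith [sq_nonneg (t * f a - f' a), sq_nonneg (t * g a - g' a)]
  rcases eq_or_lt_of_le nA with h | h
  · have h1 : C = 0 := by
      by_contra hne
      have := key ((B + 1) / (2 * C))
      rw [← h] at this
      have e : 2 * ((B + 1) / (2 * C)) * C = B + 1 := by field_simp
      rw [e] at this
      linarith
    rw [h1, ← h]; simp
  · have := key (C / A)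
    have e : (C / A) ^ 2 * A - 2 * (C / A) * C + B = B - C ^ 2 / A := by field_simp; ring
    rw [e, sub_nonneg, div_le_iff₀ h] at this
    linarith

/-- unit cell with lower left corner `(a, b)` -/
def Q (a b : ℝ) : Set P := Ioc a (a + 1) ×ˢ Ioc b (b + 1)

theorem Q_meas (a b : ℝ) : MeasurableSet (Q a b) := measurableSet_Ioc.prod measurableSet_Ioc

theorem Q_vol (a b : ℝ) : (volume : Measure P).real (Q a b) = 1 := by
  have : (volume : Measure P) = (volume : Measure ℝ).prod volume := rfl
  rw [this]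
  unfold Q
  rw [measureReal_prod_prod, Real.volume_real_Ioc_of_le (by linarith),
    Real.volume_real_Ioc_of_le (by linarith)]
  ring

theorem Q_fin (a b : ℝ) : (volume : Measure P) (Q a b) ≠ ⊤ := by
  intro h
  have := Q_vol a b
  rw [Measure.real, h] at this
  simp at this

/-- the centre of the cell -/
noncomputable def cc (a b : ℝ) : P := (a + 1 / 2, b + 1 / 2)

theorem out_of_Q {a b : ℝ} {z : P} (hz : z ∉ Q a b) : 1 / 4 ≤ r2 (z - cc a b) := by
  simp only [Q, mem_prod, mem_Ioc, not_and_or, not_lt, not_le] at hz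
  simp only [r2, cc, Prod.fst_sub, Prod.snd_sub]
  rcases hz with (h | h) | (h | h)
  · nlinarith [sq_nonneg (z.2 - (b + 1 / 2))]
  · nlinarith [sq_nonneg (z.2 - (b + 1 / 2))]
  · nlinarith [sq_nonneg (z.1 - (a + 1 / 2))]
  · nlinarith [sq_nonneg (z.1 - (a + 1 / 2))]

/-- the square mass of the kernel at scale one half -/
noncomputable def KK : ℝ := ∫ z, mker (1 / 2) z ^ 2

theorem KK_nonneg : 0 ≤ KK := integral_nonneg fun _ => sq_nonneg _

theorem KK_trans (c : P) : ∫ z, mker (1 / 2) (z - c) ^ 2 = KK :=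
  integral_sub_right_eq_self (fun z => mker (1 / 2) z ^ 2) c

/-- the constant in the cell inequality -/
noncomputable def CQ (ε L : ℝ) : ℝ :=
  1 / 9 + ((1 + ε) * (L * mu0) + (1 + 1 / ε) * (KK / 9)) / mu0 ^ 2

theorem cell_bound {L : ℝ} (hL : 0 ≤ L) {ε : ℝ} (hε : 0 < ε) {φ : P → ℝ} (h : IsTest univ φ)
    (a b : ℝ) (hh : ∀ z, L - 1 ≤ G L (z - cc a b) → φ z = 0) :
    ∫ z in Q a b, φ z ^ 2 ≤ CQ ε L * ∫ z in Q a b, (dd ex φ z ^ 2 + dd ey φ z ^ 2) := by
  set c := cc a b with hc
  set E := ∫ z in Q a b, (dd ex φ z ^ 2 + dd ey φ z ^ 2) with hE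
  set A := ∫ z, φ z * mker (1 / 2) (z - c) with hA
  set β := ∫ z in Q a b, φ z with hβ
  have h0 := H0.of_test h
  have hm := mu0_pos
  have E0 : 0 ≤ E := integral_nonneg fun z => by positivity
  have mφ : MemLp φ 2 (volume.restrict (Q a b)) := h.memLp.mono_measure Measure.restrict_le_self
  have mx : MemLp (dd ex φ) 2 (volume.restrict (Q a b)) :=
    (h.dd ex).memLp.mono_measure Measure.restrict_le_self
  have my : MemLp (dd ey φ) 2 (volume.restrict (Q a b)) :=
    (h.dd ey).memLp.mono_measure Measure.restrict_le_self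
  have : IsFiniteMeasure (volume.restrict (Q a b)) :=
    ⟨by rw [Measure.restrict_apply_univ]; exact (Q_fin a b).lt_top⟩
  -- the flux identity
  have flux : ∫ z in Q a b, (dd ex φ z * dd ex (G L) (z - c) + dd ey φ z * dd ey (G L) (z - c)) = - A := by
    rw [setIntegral_eq_integral_of_forall_compl_eq_zero]
    · have t := h0.test_gk (rh_pos L) (rh_le hL) c
      have e0 : ∫ z, φ z * mker (rh L) (z - c) = 0 := by
        have : ∀ z, φ z * mker (rh L) (z - c) = 0 := by
          intro z
          rcases le_total (r2 (z - c)) (rh L ^ 2) with h1 | h1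
          · rw [hh z (G_in hL h1), zero_mul]
          · rw [mk_zero_out (rh_pos L) h1, mul_zero]
        simp [this]
      rw [e0] at t
      have : G L = gk (rh L) (1 / 2) := rfl
      rw [this, t]
      ring
    · intro z hz
      rw [dd_G_out hL (out_of_Q hz), dd_G_out hL (out_of_Q hz)]
      ring
  have gm : ∀ v, MemLp (fun z => dd v (G L) (z - c)) 2 volume := by
    intro v
    have t := IsTest1.dd_memLp (gkt_test (rh_pos L) (rh_le hL) c) v
    refine (memLp_congr_ae ?_).1 t
    filter_upwards with z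
    exact dd_trans (gk (rh L) (1 / 2)) c v z
  have gE : ∫ z in Q a b, (dd ex (G L) (z - c) ^ 2 + dd ey (G L) (z - c) ^ 2) ≤ L * mu0 := by
    refine le_trans ?_ (G_energy hL)
    rw [← integral_sub_right_eq_self (fun z => dd ex (G L) z ^ 2 + dd ey (G L) z ^ 2) c]
    apply setIntegral_le_integral
    · exact (gm ex).integrable_sq.add (gm ey).integrable_sq
    · filter_upwards with z
      positivity
  have A2 : A ^ 2 ≤ E * (L * mu0) := by
    have t := cs2 mx my ((gm ex).mono_measure (Measure.restrict_le_self (s := Q a b)))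
      ((gm ey).mono_measure (Measure.restrict_le_self (s := Q a b)))
    rw [flux, neg_sq] at t
    exact t.trans (mul_le_mul_of_nonneg_left gE E0)
  -- Poincaré on the cell
  have poin : ∫ z in Q a b, φ z ^ 2 ≤ 1 / 9 * E + β ^ 2 := by
    have t := Rellich.cell (h.smooth.of_le one_le_inf) (a := a) (b := b) one_pos
    have e : E = (∫ z in Q a b, dd ex φ z ^ 2) + ∫ z in Q a b, dd ey φ z ^ 2 :=
      integral_add mx.integrable_sq my.integrable_sq
    rw [e]
    simp only [one_pow, div_one, one_mul] at t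
    change ∫ z in Q a b, φ z ^ 2 ≤ 1 / 9 * (∫ z in Q a b, dd ex φ z ^ 2) +
      1 / 9 * (∫ z in Q a b, dd ey φ z ^ 2) + β ^ 2 at t
    linarith
  have dev : ∫ z in Q a b, (φ z - β) ^ 2 ≤ 1 / 9 * E := by
    have e1 : ∀ z, (φ z - β) ^ 2 = φ z ^ 2 - 2 * β * φ z + β ^ 2 := fun z => by ring
    simp only [e1]
    have i1 := mφ.integrable_sq
    have i2 : Integrable φ (volume.restrict (Q a b)) := mφ.integrable (by norm_num)
    rw [integral_add (f := fun z => φ z ^ 2 - 2 * β * φ z) (i1.sub (i2.const_mul _))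
      (integrable_const _), integral_sub i1 (i2.const_mul _),
      integral_const_mul, integral_const]
    simp only [measureReal_restrict_apply_univ, Q_vol, one_smul]
    rw [← hβ]
    nlinarith
  -- comparison of the two averages
  have mk2 : MemLp (fun z => mker (1 / 2) (z - c)) 2 volume := mkert_memLp (by norm_num) c
  have kz : ∀ z, z ∉ Q a b → mker (1 / 2) (z - c) = 0 := fun z hz =>
    mk_zero_out (by norm_num) (by have := out_of_Q hz; norm_num; linarith)
  have hmass : ∫ z in Q a b, mker (1 / 2) (z - c) = mu0 := by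
    rw [setIntegral_eq_integral_of_forall_compl_eq_zero kz]
    exact mkert_mass (by norm_num) c
  set B := ∫ z in Q a b, (φ z - β) * mker (1 / 2) (z - c) with hB
  have mk2Q : MemLp (fun z => mker (1 / 2) (z - c)) 2 (volume.restrict (Q a b)) :=
    mk2.mono_measure Measure.restrict_le_self
  have mβ : MemLp (fun z => φ z - β) 2 (volume.restrict (Q a b)) := mφ.sub (memLp_const β)
  have B2 : B ^ 2 ≤ 1 / 9 * E * KK := by
    have z0 : MemLp (fun _ : P => (0 : ℝ)) 2 (volume.restrict (Q a b)) := memLp_const 0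
    have t := cs2 mβ z0 mk2Q z0
    simp only [mul_zero, add_zero, ne_eq, OfNat.ofNat_ne_zero, not_false_eq_true, zero_pow] at t
    refine t.trans ?_
    have k1 : ∫ z in Q a b, mker (1 / 2) (z - c) ^ 2 ≤ KK := by
      rw [← KK_trans c]
      apply setIntegral_le_integral mk2.integrable_sq
      filter_upwards with z
      positivity
    have n1 : 0 ≤ ∫ z in Q a b, mker (1 / 2) (z - c) ^ 2 := integral_nonneg fun z => sq_nonneg _
    exact mul_le_mul dev k1 n1 (by positivity)
  have AB : A = B + β * mu0 := by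
    have e1 : A = ∫ z in Q a b, φ z * mker (1 / 2) (z - c) := by
      rw [setIntegral_eq_integral_of_forall_compl_eq_zero]
      intro z hz
      rw [kz z hz, mul_zero]
    rw [e1, hB, ← hmass, ← integral_const_mul, ← integral_add (integrable_mul2 mβ mk2Q)
      ((mk2Q.integrable (by norm_num)).const_mul β)]
    congr 1
    ext z
    ring
  have key : (β * mu0) ^ 2 ≤ (1 + ε) * A ^ 2 + (1 + 1 / ε) * B ^ 2 := by
    have e1 : β * mu0 = A - B := by linarith
    rw [e1]
    have e2 : (1 + ε) * A ^ 2 + (1 + 1 / ε) * B ^ 2 - (A - B) ^ 2 = (ε * A + B) ^ 2 / ε := by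
      field_simp
      ring
    have e3 : 0 ≤ (ε * A + B) ^ 2 / ε := by positivity
    linarith
  have β2 : β ^ 2 ≤ ((1 + ε) * (L * mu0) + (1 + 1 / ε) * (KK / 9)) / mu0 ^ 2 * E := by
    rw [div_mul_eq_mul_div, le_div_iff₀ (by positivity)]
    have e1 : 0 < 1 / ε := by positivity
    have f1 : (1 + ε) * A ^ 2 ≤ (1 + ε) * (E * (L * mu0)) := by gcongr
    have f2 : (1 + 1 / ε) * B ^ 2 ≤ (1 + 1 / ε) * (1 / 9 * E * KK) := by gcongr
    nlinarith
  unfold CQ
  linarith

end Perf

end Pool.Agent.Lib.MP_f46d6a
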