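import Pool.Agent.Lib.MP_f46d6a_h79.Perf1

/-!
# Perforated squares: the domain and its first eigenvalue
-/

set_option autoImplicit false

open MeasureTheory Set Filter Topology
open scoped ContDiff

namespace Pool.Agent.Lib.MP_f46d6a

open Pool.Agent.Lib.MP_dac83a

namespace Perf

/-- index set of the cells -/
def idx (N : ℕ) : Finset (ℕ × ℕ) := Finset.range (2 * N) ×ˢ Finset.range (2 * N)

/-- centre of the cell number `p` -/
noncomputable def ctr (N : ℕ) (p : ℕ × ℕ) : P := cc (-(N : ℝ) + p.1) (-(N : ℝ) + p.2)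

/-- the box -/
def Box (N : ℕ) : Set P := Ioo (-(N : ℝ)) N ×ˢ Ioo (-(N : ℝ)) N

/-- the perforated box -/
def PU (L : ℝ) (N : ℕ) : Set P := {z | z ∈ Box N ∧ ∀ p ∈ idx N, G L (z - ctr N p) < L - 1}

theorem Box_open (N : ℕ) : IsOpen (Box N) := isOpen_Ioo.prod isOpen_Ioo

theorem PU_open {L : ℝ} (hL : 0 ≤ L) (N : ℕ) : IsOpen (PU L N) := by
  have e : PU L N = Box N ∩ ⋂ p ∈ idx N, {z | G L (z - ctr N p) < L - 1} := by
    ext z
    simp [PU]
  rw [e]
  apply (Box_open N).inter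
  apply isOpen_biInter_finset
  intro p _
  exact isOpen_lt ((G_cont hL).comp (by fun_prop)) continuous_const

theorem PU_sub (L : ℝ) (N : ℕ) : PU L N ⊆ Box N := fun _ h => h.1

theorem Box_vol (N : ℕ) : volume (Box N) ≠ ⊤ ∧ (volume (Box N)).toReal = 4 * (N : ℝ) ^ 2 := by
  have h0 : (0 : ℝ) ≤ N := by positivity
  have e : volume (Box N) = ENNReal.ofReal (4 * (N : ℝ) ^ 2) := by
    have : (volume : Measure P) = (volume : Measure ℝ).prod volume := rfl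
    rw [this]
    unfold Box
    rw [Measure.prod_prod, Real.volume_Ioo, ← ENNReal.ofReal_mul (by linarith)]
    congr 1
    ring
  rw [e]
  exact ⟨ENNReal.ofReal_ne_top, ENNReal.toReal_ofReal (by positivity)⟩

theorem PU_fin (L : ℝ) (N : ℕ) : volume (PU L N) ≠ ⊤ :=
  ((measure_mono (PU_sub L N)).trans_lt (Box_vol N).1.lt_top).ne

theorem PU_vol (L : ℝ) (N : ℕ) : (volume (PU L N)).toReal ≤ 4 * (N : ℝ) ^ 2 := by
  rw [← (Box_vol N).2]
  exact ENNReal.toReal_mono (Box_vol N).1 (measure_mono (PU_sub L N))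

theorem half_int (n i : ℕ) : (1 : ℝ) / 2 ≤ |0 - (-(n : ℝ) + i + 1 / 2)| := by
  rcases Nat.lt_or_ge i n with h | h
  · have : (i : ℝ) + 1 ≤ n := by exact_mod_cast h
    rw [abs_of_nonneg (by linarith)]
    linarith
  · have : (n : ℝ) ≤ i := by exact_mod_cast h
    rw [abs_of_nonpos (by linarith)]
    linarith

theorem PU_ne {L : ℝ} (hL : 1 < L) {N : ℕ} (hN : 0 < N) : (PU L N).Nonempty := by
  have h0 : (0 : ℝ) < N := by exact_mod_cast hN
  refine ⟨0, ⟨⟨by simpa using h0, by simpa using h0⟩, ⟨by simpa using h0, by simpa using h0⟩⟩, ?_⟩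
  intro p _
  rw [G_out (by linarith)]
  · linarith
  · have h1 := half_int N p.1
    simp only [r2, ctr, cc, Prod.fst_sub, Prod.snd_sub, Prod.fst_zero, Prod.snd_zero]
    have h2 : (1 / 2 : ℝ) ^ 2 ≤ (0 - (-(N : ℝ) + p.1 + 1 / 2)) ^ 2 := by
      rw [← sq_abs (0 - (-(N : ℝ) + p.1 + 1 / 2))]
      gcongr
    nlinarith [sq_nonneg (0 - (-(N : ℝ) + (p.2 : ℝ) + 1 / 2))]

theorem CQ_pos {ε L : ℝ} (hε : 0 < ε) (hL : 0 ≤ L) : 0 < CQ ε L := by
  unfold CQ
  have := mu0_pos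
  have := KK_nonneg
  positivity

theorem sum_bound {L : ℝ} (hL : 0 ≤ L) {N : ℕ} (hN : 0 < N) {ε : ℝ} (hε : 0 < ε) {φ : P → ℝ}
    (h : IsTest (PU L N) φ) : Nm φ ≤ CQ ε L * En φ := by
  have hN' : (0 : ℝ) < N := by exact_mod_cast hN
  have hb : IsTest (Set.Ioo (-(N : ℝ)) N ×ˢ Set.Ioo (-(N : ℝ)) N) φ := h.mono (PU_sub L N)
  have hv := fun z => Rellich.dd_vanish hb z
  have cf : Continuous φ := h.smooth.continuous
  have cdx : Continuous (dd ex φ) := (h.dd ex).smooth.continuous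
  have cdy : Continuous (dd ey φ) := (h.dd ey).smooth.continuous
  have hh : (1 : ℝ) = 2 * N / ((2 * N : ℕ) : ℝ) := by
    push_cast
    field_simp
  unfold Nm En
  rw [Rellich.grid hN' (F := fun z => φ z ^ 2) (by fun_prop)
    (fun z hz => by rw [(hv z hz).1]; ring) (M := 2 * N) (by omega) hh,
    Rellich.grid hN' (F := fun z => dd ex φ z ^ 2 + dd ey φ z ^ 2) (by fun_prop)
      (fun z hz => by rw [(hv z hz).2.1, (hv z hz).2.2]; ring) (M := 2 * N) (by omega) hh]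
  simp only [Finset.mul_sum]
  apply Finset.sum_le_sum
  intro i hi
  apply Finset.sum_le_sum
  intro j hj
  rw [Rellich.D_eq (by fun_prop) one_pos, Rellich.D_eq (by fun_prop) one_pos]
  apply cell_bound hL hε (h.mono (subset_univ _))
  intro z hz
  by_contra hne
  have hz' : z ∈ PU L N := h.sub (subset_tsupport φ hne)
  have := hz'.2 (i, j) (Finset.mem_product.2 ⟨hi, hj⟩)
  simp only [ctr] at this
  rw [mul_one, mul_one] at hz
  linarith

theorem lamP_lower79 {L : ℝ} (hL : 1 < L) {N : ℕ} (hN : 0 < N) {ε : ℝ} (hε : 0 < ε) :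
    1 / CQ ε L ≤ lamP (PU L N) := by
  apply lamP_ge (PU_open (by linarith) N) (PU_ne hL hN)
  intro φ hφ
  rw [div_mul_eq_mul_div, one_mul, div_le_iff₀ (CQ_pos hε (by linarith)), mul_comm]
  exact sum_bound (by linarith) hN hε hφ

/-! ## Disjointness of the cells -/

theorem ctr_unique {N : ℕ} {p q : ℕ × ℕ} {z : P} (hp : r2 (z - ctr N p) < 1 / 4)
    (hq : r2 (z - ctr N q) < 1 / 4) : p = q := by
  simp only [r2, ctr, cc, Prod.fst_sub, Prod.snd_sub] at hp hq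
  have aux : ∀ x y i j : ℝ, (x - (-(N : ℝ) + i + 1 / 2)) ^ 2 < 1 / 4 →
      (x - (-(N : ℝ) + j + 1 / 2)) ^ 2 < 1 / 4 → i < j + 1 := by
    intro x y i j h1 h2
    have h1' := abs_lt_of_sq_lt_sq' (a := x - (-(N : ℝ) + i + 1 / 2)) (b := 1 / 2) (by linarith)
      (by norm_num)
    have h2' := abs_lt_of_sq_lt_sq' (a := x - (-(N : ℝ) + j + 1 / 2)) (b := 1 / 2) (by linarith)
      (by norm_num)
    linarith [h1'.1, h1'.2, h2'.1, h2'.2]
  have s1 : (z.1 - (-(N : ℝ) + p.1 + 1 / 2)) ^ 2 < 1 / 4 := by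
    nlinarith [sq_nonneg (z.2 - (-(N : ℝ) + (p.2 : ℝ) + 1 / 2))]
  have s2 : (z.1 - (-(N : ℝ) + q.1 + 1 / 2)) ^ 2 < 1 / 4 := by
    nlinarith [sq_nonneg (z.2 - (-(N : ℝ) + (q.2 : ℝ) + 1 / 2))]
  have s3 : (z.2 - (-(N : ℝ) + p.2 + 1 / 2)) ^ 2 < 1 / 4 := by
    nlinarith [sq_nonneg (z.1 - (-(N : ℝ) + (p.1 : ℝ) + 1 / 2))]
  have s4 : (z.2 - (-(N : ℝ) + q.2 + 1 / 2)) ^ 2 < 1 / 4 := by
    nlinarith [sq_nonneg (z.1 - (-(N : ℝ) + (q.1 : ℝ) + 1 / 2))]
  have a1 := aux _ 0 _ _ s1 s2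
  have a2 := aux _ 0 _ _ s2 s1
  have a3 := aux _ 0 _ _ s3 s4
  have a4 := aux _ 0 _ _ s4 s3
  have b1 : p.1 < q.1 + 1 := by exact_mod_cast a1
  have b2 : q.1 < p.1 + 1 := by exact_mod_cast a2
  have b3 : p.2 < q.2 + 1 := by exact_mod_cast a3
  have b4 : q.2 < p.2 + 1 := by exact_mod_cast a4
  ext <;> omega

theorem idx_card (N : ℕ) : ((idx N).card : ℝ) = 4 * (N : ℝ) ^ 2 := by
  unfold idx
  rw [Finset.card_product, Finset.card_range]
  push_cast
  ring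

end Perf

end Pool.Agent.Lib.MP_f46d6a
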