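import Pool.Agent.Lib.MP_f46d6a_h79.Perf2

/-!
# Perforated squares: cut-off functions
-/

set_option autoImplicit false

open MeasureTheory Set Filter Topology
open scoped ContDiff

namespace Pool.Agent.Lib.MP_f46d6a

open Pool.Agent.Lib.MP_dac83a

namespace Perf

theorem sum_cases (N : ℕ) (z : P) :
    (∃ q ∈ idx N, ∀ f : P → ℝ, (∀ w, 1 / 4 ≤ r2 w → f w = 0) →
      ∑ p ∈ idx N, f (z - ctr N p) = f (z - ctr N q)) ∨
    (∀ f : P → ℝ, (∀ w, 1 / 4 ≤ r2 w → f w = 0) → ∑ p ∈ idx N, f (z - ctr N p) = 0) := by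
  by_cases h : ∃ q ∈ idx N, r2 (z - ctr N q) < 1 / 4
  · obtain ⟨q, hq, h1⟩ := h
    refine Or.inl ⟨q, hq, fun f hf => ?_⟩
    apply Finset.sum_eq_single_of_mem q hq
    intro p _ hpq
    apply hf
    by_contra hlt
    exact hpq (ctr_unique (not_le.1 hlt) h1)
  · push Not at h
    refine Or.inr fun f hf => ?_
    exact Finset.sum_eq_zero fun p hp => hf _ (h p hp)

/-- the capacitary profile of a hole -/
noncomputable def kk (L : ℝ) (z : P) : ℝ := 1 - Lm (L - 2 - G L z) / Lm (L - 2)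

section kk

variable {L : ℝ} (hL : 4 ≤ L)
include hL

omit hL in
theorem Lm_low : L - 3 ≤ Lm (L - 2) := by
  have := Lm_ge (L - 2); linarith

theorem Lm_pos' : 0 < Lm (L - 2) := by
  have := Lm_low (L := L); linarith

theorem kk_contDiff : ContDiff ℝ 1 (kk L) := by
  have h1 : ContDiff ℝ 1 (G L) := (G_contDiff (by linarith)).of_le (by norm_num)
  unfold kk
  exact contDiff_const.sub ((Lm_contDiff1.comp (contDiff_const.sub h1)).div_const _)

theorem kk_out {z : P} (hz : 1 / 4 ≤ r2 z) : kk L z = 0 := by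
  unfold kk
  rw [G_out (by linarith) hz, sub_zero, div_self (Lm_pos' hL).ne', sub_self]

theorem kk_le_one (z : P) : kk L z ≤ 1 := by
  unfold kk
  have := div_nonneg (Lm_nonneg (L - 2 - G L z)) (Lm_pos' hL).le
  linarith

theorem kk_nonneg (z : P) : 0 ≤ kk L z := by
  unfold kk
  have h1 : Lm (L - 2 - G L z) ≤ Lm (L - 2) := Lm_mono (by
    have := G_nonneg (show 0 ≤ L by linarith) z; linarith)
  have := div_le_one_of_le₀ h1 (Lm_pos' hL).le
  linarith

omit hL in
theorem kk_in {z : P} (hz : L - 2 ≤ G L z) : kk L z = 1 := by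
  unfold kk
  rw [Lm_of_nonpos (by linarith)]
  simp

theorem dd_kk (v z : P) :
    dd v (kk L) z = Lm' (L - 2 - G L z) / Lm (L - 2) * dd v (G L) z := by
  have h1 : DifferentiableAt ℝ (fun z : P => L - 2 - G L z) z :=
    (G_diffAt (by linarith) z).const_sub (L - 2)
  have e1 : dd v (fun z : P => L - 2 - G L z) z = - dd v (G L) z := by
    simp only [dd]
    rw [fderiv_const_sub]
    rfl
  have h2 := dd_comp (F := fun t => 1 - Lm t / Lm (L - 2)) (f := fun z : P => L - 2 - G L z) (z := z)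
    (((Lm_hasDeriv _).div_const _).const_sub 1).differentiableAt h1 v
  have h3 : deriv (fun t => 1 - Lm t / Lm (L - 2)) (L - 2 - G L z) =
      - (Lm' (L - 2 - G L z) / Lm (L - 2)) :=
    (((Lm_hasDeriv _).div_const _).const_sub 1).deriv
  rw [show kk L = fun z => 1 - Lm (L - 2 - G L z) / Lm (L - 2) from rfl, h2, h3, e1]
  ring

theorem dd_kk_out {z : P} (hz : 1 / 4 ≤ r2 z) (v : P) : dd v (kk L) z = 0 := by
  rw [dd_kk hL, dd_G_out (by linarith) hz, mul_zero]

theorem dd_kk_sq (v z : P) : dd v (kk L) z ^ 2 ≤ 1 / (L - 3) ^ 2 * dd v (G L) z ^ 2 := by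
  rw [dd_kk hL, mul_pow]
  apply mul_le_mul_of_nonneg_right _ (sq_nonneg _)
  rw [div_pow]
  have h1 := Lm'_nonneg (L - 2 - G L z)
  have h2 := Lm'_le_one (L - 2 - G L z)
  have h3 := Lm_low (L := L)
  apply div_le_div₀ zero_le_one
  · nlinarith
  · have : 0 < L - 3 := by linarith
    positivity
  · have : 0 ≤ L - 3 := by linarith
    gcongr

theorem kk_support : Function.support (kk L) ⊆ Metric.closedBall 0 (1 / 2) := by
  intro z hz
  by_contra h
  apply hz
  apply kk_out hL
  rw [Metric.mem_closedBall, dist_zero_right, not_le] at h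
  have := norm_sq_le_r2 z
  nlinarith

theorem kk_test : IsTest1 (Box 1) (kk L) := by
  refine ⟨kk_contDiff hL, HasCompactSupport.intro (isCompact_closedBall 0 (1 / 2)) (fun z hz => by
    by_contra h; exact hz (kk_support hL h)), ?_⟩
  refine (closure_minimal (kk_support hL) Metric.isClosed_closedBall).trans ?_
  intro z hz
  rw [Metric.mem_closedBall, dist_zero_right] at hz
  have h1 : |z.1| ≤ 1 / 2 := (norm_fst_le z).trans hz
  have h2 : |z.2| ≤ 1 / 2 := (norm_snd_le z).trans hz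
  rw [abs_le] at h1 h2
  simp only [Box, Nat.cast_one]
  exact ⟨⟨by linarith [h1.1], by linarith [h1.2]⟩, ⟨by linarith [h2.1], by linarith [h2.2]⟩⟩

theorem kk_energy : ∫ z, (dd ex (kk L) z ^ 2 + dd ey (kk L) z ^ 2) ≤ L * mu0 / (L - 3) ^ 2 := by
  have h0 : 0 ≤ L := by linarith
  have h1 : 0 < L - 3 := by linarith
  have hk := H0.of_C1 (Box_open 1) (kk_test hL)
  calc ∫ z, (dd ex (kk L) z ^ 2 + dd ey (kk L) z ^ 2)
      ≤ ∫ z, 1 / (L - 3) ^ 2 * (dd ex (G L) z ^ 2 + dd ey (G L) z ^ 2) := by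
        apply integral_mono hk.int_en ((G_int_en h0).const_mul _)
        intro z
        have a1 := dd_kk_sq hL ex z
        have a2 := dd_kk_sq hL ey z
        show dd ex (kk L) z ^ 2 + dd ey (kk L) z ^ 2 ≤
          1 / (L - 3) ^ 2 * (dd ex (G L) z ^ 2 + dd ey (G L) z ^ 2)
        linarith
    _ ≤ L * mu0 / (L - 3) ^ 2 := by
        rw [integral_const_mul, div_mul_eq_mul_div, one_mul]
        gcongr
        exact G_energy h0

theorem kk_int : Integrable (kk L) :=
  (kk_contDiff hL).continuous.integrable_of_hasCompactSupport (kk_test hL).cpt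

theorem kk_mass : ∫ z, kk L z ≤ 2 * √(2 * (L * mu0 / (L - 3) ^ 2)) := by
  have hk := H0.of_C1 (Box_open 1) (kk_test hL)
  have h1 := hk.int_le (Box_open 1) (Box_vol 1).1
  have h2 := hk.poinc (Box_open 1) (Box_vol 1).1
  have h3 : vol (Box 1) = 4 := by
    unfold vol
    rw [(Box_vol 1).2]; norm_num
  rw [h3] at h1 h2
  have h4 : √(4 : ℝ) = 2 := by
    rw [show (4 : ℝ) = 2 ^ 2 by norm_num]
    exact Real.sqrt_sq (by norm_num)
  rw [h4] at h1
  refine h1.trans ?_
  gcongr
  have := kk_energy hL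
  linarith

end kk

/-! ## The one-dimensional cut-off -/

theorem bb_support : Function.support bb ⊆ Ioc 0 1 := by
  intro t ht
  constructor
  · by_contra h
    exact ht (bb_of_nonpos (not_lt.1 h))
  · by_contra h
    exact ht (bb_of_one_le (not_le.1 h).le)

theorem bb_cpt : HasCompactSupport bb :=
  HasCompactSupport.intro isCompact_Icc (fun t ht => by
    by_contra h
    exact ht (Ioc_subset_Icc_self (bb_support h)))

theorem bb_int : Integrable bb := bb_cont.integrable_of_hasCompactSupport bb_cpt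

theorem bb_mass : ∫ t, bb t = 1 := by
  rw [← intervalIntegral.integral_eq_integral_of_support_subset (a := 0) (b := 1) bb_support]
  exact Lm'_of_one_le le_rfl

/-- one-dimensional cut-off -/
noncomputable def X (N : ℕ) (s : ℝ) : ℝ := Lm' (s + (N - 1 / 2)) * Lm' ((N - 1 / 2) - s)

/-- its derivative -/
noncomputable def X' (N : ℕ) (s : ℝ) : ℝ :=
  bb (s + (N - 1 / 2)) * Lm' ((N - 1 / 2) - s) - Lm' (s + (N - 1 / 2)) * bb ((N - 1 / 2) - s)

theorem X_nonneg (N : ℕ) (s : ℝ) : 0 ≤ X N s := mul_nonneg (Lm'_nonneg _) (Lm'_nonneg _)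
theorem X_le_one (N : ℕ) (s : ℝ) : X N s ≤ 1 :=
  mul_le_one₀ (Lm'_le_one _) (Lm'_nonneg _) (Lm'_le_one _)

theorem X_hasDeriv (N : ℕ) (s : ℝ) : HasDerivAt (X N) (X' N s) s := by
  have h1 : HasDerivAt (fun s : ℝ => Lm' (s + (N - 1 / 2))) (bb (s + (N - 1 / 2))) s := by
    have := (Lm'_hasDeriv (s + (N - 1 / 2))).comp s ((hasDerivAt_id s).add_const (N - 1 / 2 : ℝ))
    rw [mul_one] at this
    exact this
  have h2 : HasDerivAt (fun s : ℝ => Lm' ((N - 1 / 2) - s)) (- bb ((N - 1 / 2) - s)) s := by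
    have := (Lm'_hasDeriv ((N - 1 / 2) - s)).comp s ((hasDerivAt_id s).const_sub (N - 1 / 2 : ℝ))
    rw [mul_neg, mul_one] at this
    exact this
  have := h1.mul h2
  refine this.congr_deriv ?_
  unfold X'
  ring

theorem X_cont (N : ℕ) : Continuous (X N) :=
  continuous_iff_continuousAt.2 fun s => (X_hasDeriv N s).continuousAt

theorem X'_cont (N : ℕ) : Continuous (X' N) := by
  unfold X'
  have h1 : Continuous fun s : ℝ => bb (s + (N - 1 / 2)) := bb_cont.comp (by fun_prop)
  have h2 : Continuous fun s : ℝ => bb ((N - 1 / 2) - s) := bb_cont.comp (by fun_prop)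
  have h3 : Continuous fun s : ℝ => Lm' (s + (N - 1 / 2)) := Lm'_cont.comp (by fun_prop)
  have h4 : Continuous fun s : ℝ => Lm' ((N - 1 / 2) - s) := Lm'_cont.comp (by fun_prop)
  exact (h1.mul h4).sub (h3.mul h2)

theorem X_contDiff (N : ℕ) : ContDiff ℝ 1 (X N) := by
  rw [contDiff_one_iff_deriv]
  refine ⟨fun s => (X_hasDeriv N s).differentiableAt, ?_⟩
  have : deriv (X N) = X' N := by ext s; exact (X_hasDeriv N s).deriv
  rw [this]
  exact X'_cont N

theorem X_out {N : ℕ} {s : ℝ} (h : X N s ≠ 0) : -(N : ℝ) + 1 / 2 ≤ s ∧ s ≤ N - 1 / 2 := by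
  constructor
  · by_contra hc
    apply h
    unfold X
    rw [Lm'_of_nonpos (by linarith), zero_mul]
  · by_contra hc
    apply h
    unfold X
    rw [Lm'_of_nonpos (show (N - 1 / 2 : ℝ) - s ≤ 0 by linarith), mul_zero]

theorem X_one {N : ℕ} {s : ℝ} (h1 : -(N : ℝ) + 3 / 2 ≤ s) (h2 : s ≤ N - 3 / 2) : X N s = 1 := by
  unfold X
  rw [Lm'_of_one_le (by linarith), Lm'_of_one_le (by linarith), one_mul]

theorem X_cpt (N : ℕ) : HasCompactSupport (X N) :=
  HasCompactSupport.intro (isCompact_Icc (a := -(N : ℝ)) (b := N)) (fun t ht => by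
    by_contra h
    have := X_out h
    exact ht ⟨by linarith [this.1], by linarith [this.2]⟩)

theorem X_int (N : ℕ) : Integrable (X N) :=
  (X_cont N).integrable_of_hasCompactSupport (X_cpt N)

theorem X_mass {N : ℕ} (hN : 2 ≤ N) : 2 * (N : ℝ) - 3 ≤ ∫ s, X N s := by
  have h2 : (2 : ℝ) ≤ N := by exact_mod_cast hN
  have e : ∫ s in Icc (-(N : ℝ) + 3 / 2) (N - 3 / 2), X N s = 2 * (N : ℝ) - 3 := by
    rw [setIntegral_congr_fun measurableSet_Icc (g := fun _ => (1 : ℝ))
      (fun s hs => X_one hs.1 hs.2)]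
    rw [setIntegral_const, Real.volume_real_Icc_of_le (by linarith)]
    simp
    ring
  rw [← e]
  apply setIntegral_le_integral (X_int N)
  filter_upwards with s
  exact X_nonneg N s

theorem X_sq_int (N : ℕ) : Integrable (fun s => X N s ^ 2) := by
  have : HasCompactSupport (fun s => X N s * X N s) := (X_cpt N).mul_right
  have h2 : (fun s => X N s ^ 2) = fun s => X N s * X N s := by ext s; ring
  rw [h2]
  exact ((X_cont N).mul (X_cont N)).integrable_of_hasCompactSupport this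

theorem X_sq_mass (N : ℕ) : ∫ s, X N s ^ 2 ≤ 2 * (N : ℝ) := by
  have h0 : (0 : ℝ) ≤ N := by positivity
  have e : ∫ s, X N s ^ 2 = ∫ s in Icc (-(N : ℝ)) N, X N s ^ 2 := by
    symm
    apply setIntegral_eq_integral_of_forall_compl_eq_zero
    intro s hs
    by_contra h
    have h' : X N s ≠ 0 := fun h' => h (by rw [h']; ring)
    have := X_out h'
    exact hs ⟨by linarith [this.1], by linarith [this.2]⟩
  rw [e]
  calc ∫ s in Icc (-(N : ℝ)) N, X N s ^ 2 ≤ ∫ _s in Icc (-(N : ℝ)) N, (1 : ℝ) := by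
        apply setIntegral_mono_on (X_sq_int N).integrableOn (integrableOn_const (by simp))
          measurableSet_Icc
        intro s _
        exact pow_le_one₀ (X_nonneg N s) (X_le_one N s)
    _ = 2 * (N : ℝ) := by
        rw [setIntegral_const, Real.volume_real_Icc_of_le (by linarith)]
        simp
        ring

theorem X'_sq_le (N : ℕ) (s : ℝ) :
    X' N s ^ 2 ≤ 4 * (bb (s + (N - 1 / 2)) + bb ((N - 1 / 2) - s)) := by
  unfold X'
  set x := bb (s + (N - 1 / 2))
  set y := bb ((N - 1 / 2) - s)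
  set p := Lm' (s + (N - 1 / 2))
  set q := Lm' ((N - 1 / 2) - s)
  have x0 : 0 ≤ x := bb_nonneg _
  have y0 : 0 ≤ y := bb_nonneg _
  have x2 : x ≤ 2 := bb_le _
  have y2 : y ≤ 2 := bb_le _
  have p0 : 0 ≤ p := Lm'_nonneg _
  have q0 : 0 ≤ q := Lm'_nonneg _
  have p1 : p ≤ 1 := Lm'_le_one _
  have q1 : q ≤ 1 := Lm'_le_one _
  have a1 : 0 ≤ x * q := by positivity
  have a2 : 0 ≤ p * y := by positivity
  have a3 : x * q ≤ x := by nlinarith
  have a4 : p * y ≤ y := by nlinarith
  have b1 : (x * q) ^ 2 ≤ x ^ 2 := by gcongr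
  have b2 : (p * y) ^ 2 ≤ y ^ 2 := by gcongr
  have b3 : (x * q - p * y) ^ 2 ≤ 2 * (x * q) ^ 2 + 2 * (p * y) ^ 2 := by
    nlinarith [sq_nonneg (x * q + p * y)]
  nlinarith

theorem X'_cpt (N : ℕ) : HasCompactSupport (X' N) := by
  have : deriv (X N) = X' N := by ext s; exact (X_hasDeriv N s).deriv
  rw [← this]
  exact (X_cpt N).deriv

theorem X'_sq_int (N : ℕ) : Integrable (fun s => X' N s ^ 2) := by
  have : HasCompactSupport (fun s => X' N s * X' N s) := (X'_cpt N).mul_right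
  have h2 : (fun s => X' N s ^ 2) = fun s => X' N s * X' N s := by ext s; ring
  rw [h2]
  exact ((X'_cont N).mul (X'_cont N)).integrable_of_hasCompactSupport this

theorem X'_sq_mass (N : ℕ) : ∫ s, X' N s ^ 2 ≤ 8 := by
  have i1 : Integrable (fun s : ℝ => bb (s + (N - 1 / 2))) := bb_int.comp_add_right _
  have i2 : Integrable (fun s : ℝ => bb ((N - 1 / 2) - s)) := bb_int.comp_sub_left _
  calc ∫ s, X' N s ^ 2 ≤ ∫ s, 4 * (bb (s + (N - 1 / 2)) + bb ((N - 1 / 2) - s)) :=
        integral_mono (X'_sq_int N) ((i1.add i2).const_mul 4) (X'_sq_le N)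
    _ = 8 := by
        rw [integral_const_mul, integral_add i1 i2, integral_add_right_eq_self bb,
          integral_sub_left_eq_self bb, bb_mass]
        norm_num

end Perf

end Pool.Agent.Lib.MP_f46d6a
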