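import Pool.Agent.Lib.MP_f46d6a_h79.Perf3

/-!
# Perforated squares: the lower bound of the torsional rigidity
-/

set_option autoImplicit false

open MeasureTheory Set Filter Topology
open scoped ContDiff

namespace Pool.Agent.Lib.MP_f46d6a

open Pool.Agent.Lib.MP_dac83a

namespace Perf

/-- two-dimensional cut-off -/
noncomputable def chi (N : ℕ) (z : P) : ℝ := X N z.1 * X N z.2

/-- the perforation profile -/
noncomputable def hh (L : ℝ) (N : ℕ) (z : P) : ℝ := 1 - ∑ p ∈ idx N, kk L (z - ctr N p)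

theorem chi_contDiff (N : ℕ) : ContDiff ℝ 1 (chi N) :=
  ((X_contDiff N).comp contDiff_fst).mul ((X_contDiff N).comp contDiff_snd)

theorem chi_nonneg (N : ℕ) (z : P) : 0 ≤ chi N z := mul_nonneg (X_nonneg _ _) (X_nonneg _ _)
theorem chi_le_one (N : ℕ) (z : P) : chi N z ≤ 1 :=
  mul_le_one₀ (X_le_one _ _) (X_nonneg _ _) (X_le_one _ _)

theorem dd_chi_x (N : ℕ) (z : P) : dd ex (chi N) z = X' N z.1 * X N z.2 := by
  have h := (slice_h (chi_contDiff N) z.2).2 z.1
  rw [← show ((z.1, z.2) : P) = z from rfl]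
  rw [← h]
  exact ((X_hasDeriv N z.1).mul_const (X N z.2)).deriv

theorem dd_chi_y (N : ℕ) (z : P) : dd ey (chi N) z = X N z.1 * X' N z.2 := by
  have h := (slice_v (chi_contDiff N) z.1).2 z.2
  rw [← show ((z.1, z.2) : P) = z from rfl]
  rw [← h]
  exact ((X_hasDeriv N z.2).const_mul (X N z.1)).deriv

theorem chi_cpt (N : ℕ) : HasCompactSupport (chi N) :=
  HasCompactSupport.intro ((isCompact_Icc (a := -(N : ℝ)) (b := N)).prod
    (isCompact_Icc (a := -(N : ℝ)) (b := N))) (fun z hz => by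
    by_contra h
    have h1 : X N z.1 ≠ 0 := fun h' => h (by unfold chi; rw [h', zero_mul])
    have h2 : X N z.2 ≠ 0 := fun h' => h (by unfold chi; rw [h', mul_zero])
    have a1 := X_out h1
    have a2 := X_out h2
    exact hz ⟨⟨by linarith [a1.1], by linarith [a1.2]⟩, ⟨by linarith [a2.1], by linarith [a2.2]⟩⟩)

theorem chi_test (N : ℕ) : IsTest1 univ (chi N) := ⟨chi_contDiff N, chi_cpt N, subset_univ _⟩

theorem chi_int (N : ℕ) : Integrable (chi N) :=
  (chi_contDiff N).continuous.integrable_of_hasCompactSupport (chi_cpt N)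

theorem chi_mass {N : ℕ} (hN : 2 ≤ N) : (2 * (N : ℝ) - 3) ^ 2 ≤ ∫ z, chi N z := by
  have h2 : (2 : ℝ) ≤ N := by exact_mod_cast hN
  have e : ∫ z, chi N z = (∫ s, X N s) * ∫ s, X N s :=
    integral_prod_mul (μ := volume) (ν := volume) (X N) (X N)
  rw [e, pow_two]
  have := X_mass hN
  have h0 : 0 ≤ 2 * (N : ℝ) - 3 := by linarith
  exact mul_le_mul this this h0 (h0.trans this)

theorem chi_energy (N : ℕ) : ∫ z, (dd ex (chi N) z ^ 2 + dd ey (chi N) z ^ 2) ≤ 32 * (N : ℝ) := by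
  have h0 : (0 : ℝ) ≤ N := by positivity
  have m1 := (IsTest1.dd_memLp (chi_test N) ex).integrable_sq
  have m2 := (IsTest1.dd_memLp (chi_test N) ey).integrable_sq
  rw [integral_add m1 m2]
  have e1 : ∫ z, dd ex (chi N) z ^ 2 = (∫ s, X' N s ^ 2) * ∫ s, X N s ^ 2 := by
    rw [← integral_prod_mul (μ := volume) (ν := volume)]
    congr 1
    ext z
    rw [dd_chi_x]; ring
  have e2 : ∫ z, dd ey (chi N) z ^ 2 = (∫ s, X N s ^ 2) * ∫ s, X' N s ^ 2 := by
    rw [← integral_prod_mul (μ := volume) (ν := volume)]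
    congr 1
    ext z
    rw [dd_chi_y]; ring
  rw [e1, e2]
  have a1 := X'_sq_mass N
  have a2 := X_sq_mass N
  have b1 : 0 ≤ ∫ s, X N s ^ 2 := integral_nonneg fun s => sq_nonneg _
  have b2 : 0 ≤ ∫ s, X' N s ^ 2 := integral_nonneg fun s => sq_nonneg _
  have := mul_le_mul a1 a2 b1 (by norm_num)
  linarith

section hh

variable {L : ℝ} (hL : 4 ≤ L) (N : ℕ)
include hL

theorem kkt_contDiff (c : P) : ContDiff ℝ 1 (fun z => kk L (z - c)) :=
  (kk_contDiff hL).comp (contDiff_id.sub contDiff_const)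

theorem hh_contDiff : ContDiff ℝ 1 (hh L N) :=
  contDiff_const.sub (ContDiff.sum fun p _ => kkt_contDiff hL (ctr N p))

theorem hh_cases (z : P) : (∃ q ∈ idx N, hh L N z = 1 - kk L (z - ctr N q)) ∨ hh L N z = 1 := by
  rcases sum_cases N z with ⟨q, hq, h⟩ | h
  · left
    refine ⟨q, hq, ?_⟩
    unfold hh
    rw [h (kk L) (fun w hw => kk_out hL hw)]
  · right
    unfold hh
    rw [h (kk L) (fun w hw => kk_out hL hw), sub_zero]

theorem hh_nonneg (z : P) : 0 ≤ hh L N z := by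
  rcases hh_cases hL N z with ⟨q, _, h⟩ | h
  · rw [h]; have := kk_le_one hL (z - ctr N q); linarith
  · rw [h]; norm_num

theorem hh_le_one (z : P) : hh L N z ≤ 1 := by
  rcases hh_cases hL N z with ⟨q, _, h⟩ | h
  · rw [h]; have := kk_nonneg hL (z - ctr N q); linarith
  · rw [h]

theorem hh_hole {z : P} {q : ℕ × ℕ} (hq : q ∈ idx N) (hz : L - 2 < G L (z - ctr N q)) :
    hh L N z = 0 := by
  have h1 : r2 (z - ctr N q) < 1 / 4 := by
    by_contra hc
    rw [G_out (by linarith) (not_lt.1 hc)] at hz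
    linarith
  unfold hh
  rw [Finset.sum_eq_single_of_mem q hq]
  · rw [kk_in hz.le, sub_self]
  · intro p _ hpq
    apply kk_out hL
    by_contra hlt
    exact hpq (ctr_unique (not_le.1 hlt) h1)

theorem dd_hh (v z : P) : dd v (hh L N) z = - ∑ p ∈ idx N, dd v (kk L) (z - ctr N p) := by
  have hd : ∀ p ∈ idx N, DifferentiableAt ℝ (fun z : P => kk L (z - ctr N p)) z := fun p _ =>
    (kkt_contDiff hL (ctr N p)).differentiable (by norm_num) z
  have e : hh L N = fun z => 1 - ∑ p ∈ idx N, kk L (z - ctr N p) := rfl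
  rw [e]
  simp only [dd]
  rw [fderiv_const_sub, fderiv_fun_sum hd]
  simp only [_root_.neg_apply, _root_.sum_apply]
  congr 1
  apply Finset.sum_congr rfl
  intro p _
  exact dd_trans (kk L) (ctr N p) v z

theorem dd_hh_sq (v z : P) :
    dd v (hh L N) z ^ 2 = ∑ p ∈ idx N, dd v (kk L) (z - ctr N p) ^ 2 := by
  rw [dd_hh hL, neg_sq]
  rcases sum_cases N z with ⟨q, hq, h⟩ | h
  · rw [h (dd v (kk L)) (fun w hw => dd_kk_out hL hw v),
      h (fun w => dd v (kk L) w ^ 2) (fun w hw => by rw [dd_kk_out hL hw v]; ring)]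
  · rw [h (dd v (kk L)) (fun w hw => dd_kk_out hL hw v),
      h (fun w => dd v (kk L) w ^ 2) (fun w hw => by rw [dd_kk_out hL hw v]; ring)]
    ring

theorem hh_int_en : Integrable (fun z => dd ex (hh L N) z ^ 2 + dd ey (hh L N) z ^ 2) := by
  have hk := H0.of_C1 (Box_open 1) (kk_test hL)
  have e : (fun z => dd ex (hh L N) z ^ 2 + dd ey (hh L N) z ^ 2) =
      fun z => ∑ p ∈ idx N, (dd ex (kk L) (z - ctr N p) ^ 2 + dd ey (kk L) (z - ctr N p) ^ 2) := by
    ext z
    rw [dd_hh_sq hL, dd_hh_sq hL, Finset.sum_add_distrib]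
  rw [e]
  apply integrable_finsetSum
  intro p _
  exact hk.int_en.comp_sub_right (ctr N p)

theorem hh_energy : ∫ z, (dd ex (hh L N) z ^ 2 + dd ey (hh L N) z ^ 2) ≤
    4 * (N : ℝ) ^ 2 * (L * mu0 / (L - 3) ^ 2) := by
  have hk := H0.of_C1 (Box_open 1) (kk_test hL)
  have e : (fun z => dd ex (hh L N) z ^ 2 + dd ey (hh L N) z ^ 2) =
      fun z => ∑ p ∈ idx N, (dd ex (kk L) (z - ctr N p) ^ 2 + dd ey (kk L) (z - ctr N p) ^ 2) := by
    ext z
    rw [dd_hh_sq hL, dd_hh_sq hL, Finset.sum_add_distrib]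
  rw [e, integral_finsetSum _ (fun p _ => hk.int_en.comp_sub_right (ctr N p))]
  rw [← idx_card, ← nsmul_eq_mul]
  apply Finset.sum_le_card_nsmul
  intro p _
  rw [integral_sub_right_eq_self (fun z => dd ex (kk L) z ^ 2 + dd ey (kk L) z ^ 2)]
  exact kk_energy hL

/-- the trial function -/
theorem trial_test : IsTest1 (PU L N) (fun z => chi N z * hh L N z) := by
  set F : Set P := {z | (z ∈ Icc (-(N : ℝ) + 1 / 2) (N - 1 / 2) ×ˢ Icc (-(N : ℝ) + 1 / 2) (N - 1 / 2)) ∧
    ∀ p ∈ idx N, G L (z - ctr N p) ≤ L - 2} with hF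
  have hFc : IsClosed F := by
    have e : F = (Icc (-(N : ℝ) + 1 / 2) (N - 1 / 2) ×ˢ Icc (-(N : ℝ) + 1 / 2) (N - 1 / 2)) ∩
        ⋂ p ∈ idx N, {z | G L (z - ctr N p) ≤ L - 2} := by
      ext z
      simp [hF]
    rw [e]
    apply (isClosed_Icc.prod isClosed_Icc).inter
    apply isClosed_biInter
    intro p _
    exact isClosed_le ((G_cont (by linarith)).comp (by fun_prop)) continuous_const
  have hs : Function.support (fun z => chi N z * hh L N z) ⊆ F := by
    intro z hz
    have h0 : chi N z ≠ 0 := fun h' => hz (by simp [h'])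
    have h1 : X N z.1 ≠ 0 := fun h' => h0 (by unfold chi; rw [h', zero_mul])
    have h2 : X N z.2 ≠ 0 := fun h' => h0 (by unfold chi; rw [h', mul_zero])
    refine ⟨⟨X_out h1, X_out h2⟩, ?_⟩
    intro p hp
    by_contra hc
    apply hz
    simp [hh_hole hL N hp (not_le.1 hc)]
  refine ⟨(chi_contDiff N).mul (hh_contDiff hL N), (chi_cpt N).mul_right, ?_⟩
  refine (closure_minimal hs hFc).trans ?_
  rintro z ⟨⟨⟨a1, a2⟩, ⟨a3, a4⟩⟩, h⟩
  refine ⟨⟨⟨by linarith, by linarith⟩, ⟨by linarith, by linarith⟩⟩, ?_⟩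
  intro p hp
  have := h p hp
  linarith

theorem trial_mass (hN : 2 ≤ N) :
    (2 * (N : ℝ) - 3) ^ 2 - 4 * (N : ℝ) ^ 2 * (2 * √(2 * (L * mu0 / (L - 3) ^ 2))) ≤
      ∫ z, chi N z * hh L N z := by
  have e : ∀ z, chi N z * hh L N z = chi N z - ∑ p ∈ idx N, chi N z * kk L (z - ctr N p) := by
    intro z
    unfold hh
    rw [mul_sub, mul_one, Finset.mul_sum]
  simp only [e]
  have ik : ∀ p, Integrable (fun z => kk L (z - ctr N p)) := fun p =>
    (kk_int hL).comp_sub_right (ctr N p)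
  have ick : ∀ p, Integrable (fun z => chi N z * kk L (z - ctr N p)) := by
    intro p
    apply ((chi_contDiff N).continuous.mul (kkt_contDiff hL _).continuous).integrable_of_hasCompactSupport
    exact (chi_cpt N).mul_right
  rw [integral_sub (chi_int N) (integrable_finsetSum _ fun p _ => ick p),
    integral_finsetSum _ (fun p _ => ick p)]
  have h1 := chi_mass hN
  have h2 : ∑ p ∈ idx N, ∫ z, chi N z * kk L (z - ctr N p) ≤
      4 * (N : ℝ) ^ 2 * (2 * √(2 * (L * mu0 / (L - 3) ^ 2))) := by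
    rw [← idx_card, ← nsmul_eq_mul]
    apply Finset.sum_le_card_nsmul
    intro p _
    refine le_trans ?_ (kk_mass hL)
    rw [← integral_sub_right_eq_self (fun z => kk L z) (ctr N p)]
    apply integral_mono (ick p) (ik p)
    intro z
    show chi N z * kk L (z - ctr N p) ≤ kk L (z - ctr N p)
    have a1 := chi_le_one N z
    have a2 := kk_nonneg hL (z - ctr N p)
    nlinarith
  linarith

theorem trial_energy {ε : ℝ} (hε : 0 < ε) :
    ∫ z, (dd ex (fun z => chi N z * hh L N z) z ^ 2 + dd ey (fun z => chi N z * hh L N z) z ^ 2) ≤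
      (1 + 1 / ε) * (32 * (N : ℝ)) + (1 + ε) * (4 * (N : ℝ) ^ 2 * (L * mu0 / (L - 3) ^ 2)) := by
  have ht := H0.of_C1 (PU_open (by linarith) N) (trial_test hL N)
  have hc := H0.of_C1 isOpen_univ (chi_test N)
  have he : 0 < 1 / ε := by positivity
  have b1 := chi_energy N
  have b2 := hh_energy hL N
  calc ∫ z, (dd ex (fun z => chi N z * hh L N z) z ^ 2 + dd ey (fun z => chi N z * hh L N z) z ^ 2)
      ≤ ∫ z, ((1 + 1 / ε) * (dd ex (chi N) z ^ 2 + dd ey (chi N) z ^ 2) +
          (1 + ε) * (dd ex (hh L N) z ^ 2 + dd ey (hh L N) z ^ 2)) := by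
        apply integral_mono ht.int_en ((hc.int_en.const_mul _).add ((hh_int_en hL N).const_mul _))
        intro z
        show dd ex (fun z => chi N z * hh L N z) z ^ 2 + dd ey (fun z => chi N z * hh L N z) z ^ 2 ≤
          (1 + 1 / ε) * (dd ex (chi N) z ^ 2 + dd ey (chi N) z ^ 2) +
          (1 + ε) * (dd ex (hh L N) z ^ 2 + dd ey (hh L N) z ^ 2)
        have d1 : DifferentiableAt ℝ (chi N) z := (chi_contDiff N).differentiable (by norm_num) z
        have d2 : DifferentiableAt ℝ (hh L N) z := (hh_contDiff hL N).differentiable (by norm_num) z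
        rw [H0.dd_mul' d1 d2, H0.dd_mul' d1 d2]
        have c0 := chi_nonneg N z
        have c1 := chi_le_one N z
        have h0 := hh_nonneg hL N z
        have h1 := hh_le_one hL N z
        have key : ∀ x y : ℝ, (x * hh L N z + chi N z * y) ^ 2 ≤ (1 + 1 / ε) * x ^ 2 + (1 + ε) * y ^ 2 := by
          intro x y
          have e1 : (1 + 1 / ε) * (x * hh L N z) ^ 2 + (1 + ε) * (chi N z * y) ^ 2
              - (x * hh L N z + chi N z * y) ^ 2 = (x * hh L N z - ε * (chi N z * y)) ^ 2 / ε := by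
            field_simp
            ring
          have e2 : 0 ≤ (x * hh L N z - ε * (chi N z * y)) ^ 2 / ε := by positivity
          have e3 : (x * hh L N z) ^ 2 ≤ x ^ 2 := by
            rw [mul_pow]
            have : hh L N z ^ 2 ≤ 1 := pow_le_one₀ h0 h1
            nlinarith [sq_nonneg x]
          have e4 : (chi N z * y) ^ 2 ≤ y ^ 2 := by
            rw [mul_pow]
            have : chi N z ^ 2 ≤ 1 := pow_le_one₀ c0 c1
            nlinarith [sq_nonneg y]
          have e5 : (1 + 1 / ε) * (x * hh L N z) ^ 2 ≤ (1 + 1 / ε) * x ^ 2 := by gcongr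
          have e6 : (1 + ε) * (chi N z * y) ^ 2 ≤ (1 + ε) * y ^ 2 := by gcongr
          linarith
        have k1 := key (dd ex (chi N) z) (dd ex (hh L N) z)
        have k2 := key (dd ey (chi N) z) (dd ey (hh L N) z)
        linarith
    _ ≤ (1 + 1 / ε) * (32 * (N : ℝ)) + (1 + ε) * (4 * (N : ℝ) ^ 2 * (L * mu0 / (L - 3) ^ 2)) := by
        rw [integral_add (hc.int_en.const_mul _) ((hh_int_en hL N).const_mul _),
          integral_const_mul, integral_const_mul]
        gcongr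

theorem torP_lower79 (hN : 2 ≤ N) {ε : ℝ} (hε : 0 < ε) {s : ℝ} (hs : 0 ≤ s) :
    2 * s * ((2 * (N : ℝ) - 3) ^ 2 - 4 * (N : ℝ) ^ 2 * (2 * √(2 * (L * mu0 / (L - 3) ^ 2)))) -
      s ^ 2 * ((1 + 1 / ε) * (32 * (N : ℝ)) + (1 + ε) * (4 * (N : ℝ) ^ 2 * (L * mu0 / (L - 3) ^ 2)))
      ≤ torP (PU L N) := by
  have ht := H0.of_C1 (PU_open (by linarith) N) (trial_test hL N)
  have h1 := (ht.smul s).le_torP (PU_open (by linarith) N) (PU_fin L N)
  have e2 : ∫ z, ((s * dd ex (fun z => chi N z * hh L N z) z) ^ 2 +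
      (s * dd ey (fun z => chi N z * hh L N z) z) ^ 2) = s ^ 2 *
      ∫ z, (dd ex (fun z => chi N z * hh L N z) z ^ 2 + dd ey (fun z => chi N z * hh L N z) z ^ 2) := by
    rw [← integral_const_mul]
    congr 1
    ext z
    ring
  rw [integral_const_mul, e2] at h1
  have a1 := trial_mass hL N hN
  have a2 := trial_energy hL N hε
  have a3 := mul_le_mul_of_nonneg_left a1 hs
  have a4 := mul_le_mul_of_nonneg_left a2 (sq_nonneg s)
  linarith

end hh

end Perf

end Pool.Agent.Lib.MP_f46d6a
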