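import Pool.Agent.Lib.MP_f46d6a_h79.Scale

/-!
# M6: reduction to optimal sets (helper79)
-/

set_option autoImplicit false

open MeasureTheory Set Filter Topology
open scoped ContDiff

namespace Pool.Agent.Lib.MP_f46d6a

open Pool.Agent.Lib.MP_dac83a

theorem rpow_superadd {a b p : ℝ} (ha : 0 < a) (hb : 0 < b) (hp : 1 < p) :
    a ^ p + b ^ p < (a + b) ^ p := by
  have hab : 0 < a + b := by positivity
  have h1 : a ^ p = a * a ^ (p - 1) := by
    rw [← Real.rpow_one_add' ha.le (by linarith)]; congr 1; ring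
  have h2 : b ^ p = b * b ^ (p - 1) := by
    rw [← Real.rpow_one_add' hb.le (by linarith)]; congr 1; ring
  have h3 : (a + b) ^ p = (a + b) * (a + b) ^ (p - 1) := by
    rw [← Real.rpow_one_add' hab.le (by linarith)]; congr 1; ring
  have h4 : a ^ (p - 1) < (a + b) ^ (p - 1) :=
    Real.rpow_lt_rpow ha.le (by linarith) (by linarith)
  have h5 : b ^ (p - 1) < (a + b) ^ (p - 1) :=
    Real.rpow_lt_rpow hb.le (by linarith) (by linarith)
  rw [h1, h2, h3, add_mul]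
  exact add_lt_add (mul_lt_mul_of_pos_left h4 ha) (mul_lt_mul_of_pos_left h5 hb)

theorem connected_of_opt {α : ℝ} (hα0 : 0 < α) (hα1 : α < 1) {Ω : Set P} (hΩ : IsOpen Ω)
    (hf : volume Ω ≠ ⊤) (h : Opt α Ω) : IsPreconnected Ω := by
  intro u v hu hv hsub hnu hnv
  by_contra hcon
  have hdis0 : Ω ∩ (u ∩ v) = ∅ := not_nonempty_iff_eq_empty.1 hcon
  set U := Ω ∩ u with hUdef
  set V := Ω ∩ v with hVdef
  have hU : IsOpen U := hΩ.inter hu
  have hV : IsOpen V := hΩ.inter hv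
  have hd : Disjoint U V := by
    rw [Set.disjoint_left]
    rintro z ⟨h1, h2⟩ ⟨_, h3⟩
    have : z ∈ Ω ∩ (u ∩ v) := ⟨h1, h2, h3⟩
    rw [hdis0] at this
    exact this
  have hun : U ∪ V = Ω := by
    rw [hUdef, hVdef, ← inter_union_distrib_left]
    exact inter_eq_left.2 hsub
  have hUs : U ⊆ Ω := inter_subset_left
  have hVs : V ⊆ Ω := inter_subset_left
  have hfU : volume U ≠ ⊤ := ne_top_of_le_ne_top hf (measure_mono hUs)
  have hfV : volume V ≠ ⊤ := ne_top_of_le_ne_top hf (measure_mono hVs)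
  have hne : Ω.Nonempty := hnu.mono hUs
  have hvol : vol Ω = vol U + vol V := by
    unfold vol
    rw [← hun, measure_union hd hV.measurableSet, ENNReal.toReal_add hfU hfV]
  have hT : torP Ω ≤ torP U + torP V := by
    rw [← hun]; exact torP_union hU hV hd hfU hfV
  have hlU := lamP_anti hU hnu hUs
  have hlV := lamP_anti hV hnv hVs
  have hl0 := lamP_pos hΩ hne hf
  have hvU := vol_pos hU hnu hfU
  have hvV := vol_pos hV hnv hfV
  have hTU := torP_pos hU hnu hfU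
  have hTV := torP_pos hV hnv hfV
  have hTO := torP_pos hΩ hne hf
  have oU := h U hU hnu hfU
  have oV := h V hV hnv hfV
  have k1 : lamP Ω ^ α ≤ lamP U ^ α := Real.rpow_le_rpow hl0.le hlU hα0.le
  have k2 : lamP Ω ^ α ≤ lamP V ^ α := Real.rpow_le_rpow hl0.le hlV hα0.le
  have hlα : 0 < lamP Ω ^ α := Real.rpow_pos_of_pos hl0 _
  have hvΩ : 0 < vol Ω ^ (2 - α) := Real.rpow_pos_of_pos (by rw [hvol]; positivity) _
  have m1 : lamP Ω ^ α * torP U * vol Ω ^ (2 - α) ≤ lamP Ω ^ α * torP Ω * vol U ^ (2 - α) := by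
    refine le_trans ?_ oU
    gcongr
  have m2 : lamP Ω ^ α * torP V * vol Ω ^ (2 - α) ≤ lamP Ω ^ α * torP Ω * vol V ^ (2 - α) := by
    refine le_trans ?_ oV
    gcongr
  have m3 : lamP Ω ^ α * torP Ω * vol Ω ^ (2 - α)
      ≤ lamP Ω ^ α * torP Ω * (vol U ^ (2 - α) + vol V ^ (2 - α)) := by
    have : lamP Ω ^ α * torP Ω * vol Ω ^ (2 - α)
        ≤ lamP Ω ^ α * (torP U + torP V) * vol Ω ^ (2 - α) := by gcongr
    nlinarith
  have m4 : vol Ω ^ (2 - α) ≤ vol U ^ (2 - α) + vol V ^ (2 - α) :=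
    le_of_mul_le_mul_left m3 (by positivity)
  have m5 := rpow_superadd hvU hvV (p := 2 - α) (by linarith)
  rw [← hvol] at m5
  linarith

/-- the scale invariant functional -/
noncomputable def ratioJ (α : ℝ) (U : Set P) : ℝ := lamP U ^ α * torP U / vol U ^ (2 - α)

theorem ratioJ_scl {α : ℝ} {r : ℝ} (hr : 0 < r) {U : Set P} (hU : IsOpen U) (hne : U.Nonempty)
    (hf : volume U ≠ ⊤) : ratioJ α (scl r U) = ratioJ α U := by
  have hl := lamP_pos hU hne hf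
  have hv := vol_pos hU hne hf
  unfold ratioJ
  rw [lamP_scl hr hU hne, torP_scl hr hU hf, vol_scl hr]
  rw [Real.mul_rpow (by positivity) hl.le, Real.mul_rpow (by positivity) hv.le]
  have h1 : (r ^ 2 : ℝ) ^ α = r ^ (2 * α) := by
    rw [← Real.rpow_natCast r 2, ← Real.rpow_mul hr.le]; norm_num
  have h2 : ((r ^ 2 : ℝ)⁻¹) ^ (2 - α) = r ^ (2 * α - 4) := by
    rw [← Real.rpow_natCast r 2, ← Real.rpow_neg hr.le, ← Real.rpow_mul hr.le]; congr 1
    push_cast; ring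
  have h3 : (r ^ 4 : ℝ)⁻¹ = r ^ (-4 : ℝ) := by
    rw [← Real.rpow_natCast r 4, ← Real.rpow_neg hr.le]; norm_num
  have h4 : r ^ (2 * α) * r ^ (-4 : ℝ) = r ^ (2 * α - 4) := by
    rw [← Real.rpow_add hr]; congr 1
  have h5 : 0 < r ^ (2 * α - 4) := Real.rpow_pos_of_pos hr _
  rw [h1, h2, h3]
  have h6 : r ^ (2 * α) * lamP U ^ α * (r ^ (-4 : ℝ) * torP U)
      = r ^ (2 * α - 4) * (lamP U ^ α * torP U) := by
    rw [← h4]; ring
  rw [h6, mul_div_mul_left _ _ h5.ne']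

theorem opt_iff {α : ℝ} {Ω : Set P} (hΩ : IsOpen Ω) (hne : Ω.Nonempty) (hf : volume Ω ≠ ⊤) :
    Opt α Ω ↔ ∀ U : Set P, IsOpen U → U.Nonempty → volume U ≠ ⊤ → ratioJ α U ≤ ratioJ α Ω := by
  have h0 : 0 < vol Ω ^ (2 - α) := Real.rpow_pos_of_pos (vol_pos hΩ hne hf) _
  constructor
  · intro h U hU hnU hfU
    have h1 : 0 < vol U ^ (2 - α) := Real.rpow_pos_of_pos (vol_pos hU hnU hfU) _
    unfold ratioJ
    rw [div_le_div_iff₀ h1 h0]
    exact h U hU hnU hfU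
  · intro h U hU hnU hfU
    have h1 : 0 < vol U ^ (2 - α) := Real.rpow_pos_of_pos (vol_pos hU hnU hfU) _
    have := h U hU hnU hfU
    unfold ratioJ at this
    rwa [div_le_div_iff₀ h1 h0] at this

/-- every set of finite area can be scaled to area one -/
theorem exists_scl_one {U : Set P} (hU : IsOpen U) (hne : U.Nonempty) (hf : volume U ≠ ⊤) :
    ∃ r : ℝ, 0 < r ∧ vol (scl r U) = 1 := by
  have hv := vol_pos hU hne hf
  refine ⟨√(vol U), Real.sqrt_pos.2 hv, ?_⟩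
  rw [vol_scl (Real.sqrt_pos.2 hv), Real.sq_sqrt hv.le, inv_mul_cancel₀ hv.ne']

/-- the attainable set, planar coordinates -/
def attP : Set (ℝ × ℝ) :=
  {p | ∃ U : Set P, IsOpen U ∧ U.Nonempty ∧ volume U ≤ 1 ∧ p = (lamP U, (lamP U * torP U)⁻¹)}

/-- existence of optimal sets from closedness -/
theorem exists_opt (hclosed : IsClosed attP) {α : ℝ} (hα0 : 0 < α) (hα1 : α < 1) :
    ∃ Ω : Set P, IsOpen Ω ∧ Ω.Nonempty ∧ volume Ω ≠ ⊤ ∧ Opt α Ω := by
  -- the functional on the pairs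
  set G : ℝ × ℝ → ℝ := fun p => p.1 ^ (α - 1) / p.2 with hG
  have hGU : ∀ U : Set P, IsOpen U → U.Nonempty → volume U ≠ ⊤ →
      G (lamP U, (lamP U * torP U)⁻¹) = lamP U ^ α * torP U := by
    intro U hU hnU hfU
    have hl := lamP_pos hU hnU hfU
    simp only [hG, div_inv_eq_mul]
    rw [Real.rpow_sub_one hl.ne']
    field_simp
  have hattpos : ∀ p ∈ attP, 2 ≤ p.1 ∧ 1 ≤ p.2 ∧ 0 < G p ∧ G p ≤ 1 := by
    rintro p ⟨U, hU, hnU, hvU, rfl⟩
    have hfU : volume U ≠ ⊤ := ne_top_of_le_ne_top ENNReal.one_ne_top hvU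
    have hl := lamP_pos hU hnU hfU
    have hT := torP_pos hU hnU hfU
    have hv1 : vol U ≤ 1 := by
      unfold vol
      exact ENNReal.toReal_le_of_le_ofReal (by norm_num) (by simpa using hvU)
    have hv0 := vol_pos hU hnU hfU
    have h2 : 2 ≤ lamP U := by
      have := lamP_lower hU hnU hfU
      nlinarith
    have h3 : lamP U * torP U ≤ 1 := (lam_tor_le hU hnU hfU).trans hv1
    have h4 : 1 ≤ (lamP U * torP U)⁻¹ := (one_le_inv₀ (by positivity)).2 h3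
    refine ⟨h2, h4, ?_, ?_⟩
    · simp only [hG]; positivity
    · simp only [hG]
      rw [div_le_one (by positivity)]
      refine le_trans ?_ h4
      exact Real.rpow_le_one_of_one_le_of_nonpos (by linarith) (by linarith)
  have hne : attP.Nonempty := by
    have hb : IsOpen (Ioo (0:ℝ) 1 ×ˢ Ioo (0:ℝ) 1) := isOpen_Ioo.prod isOpen_Ioo
    refine ⟨_, Ioo (0:ℝ) 1 ×ˢ Ioo (0:ℝ) 1, hb, ⟨(1/2, 1/2), by norm_num⟩, ?_, rfl⟩
    have : (volume : Measure P) (Ioo (0:ℝ) 1 ×ˢ Ioo (0:ℝ) 1) = 1 := by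
      show ((volume : Measure ℝ).prod volume) (Ioo (0:ℝ) 1 ×ˢ Ioo (0:ℝ) 1) = 1
      rw [Measure.prod_prod]; simp
    rw [this]
  set S : ℝ := sSup (G '' attP) with hS
  have hbdd : BddAbove (G '' attP) := by
    refine ⟨1, ?_⟩
    rintro _ ⟨p, hp, rfl⟩
    exact (hattpos p hp).2.2.2
  have hSpos : 0 < S := by
    obtain ⟨p, hp⟩ := hne
    exact lt_of_lt_of_le (hattpos p hp).2.2.1 (le_csSup hbdd ⟨p, hp, rfl⟩)
  -- maximizing sequence
  obtain ⟨g, -, hg1, hg2⟩ := exists_seq_tendsto_sSup (hne.image G) hbdd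
  choose p hp hpg using hg2
  have hlim : Tendsto (fun n => G (p n)) atTop (𝓝 S) := by
    have : (fun n => G (p n)) = g := funext hpg
    rw [this]; exact hg1
  -- eventually G (p n) > S / 2
  have hev : ∀ᶠ n in atTop, S / 2 < G (p n) := hlim.eventually (lt_mem_nhds (by linarith))
  obtain ⟨N, hN⟩ := eventually_atTop.1 hev
  have hbound : ∃ R : ℝ, ∀ n, p (n + N) ∈ Icc 0 R ×ˢ Icc 0 R := by
    refine ⟨max ((2 / S) ^ (1 / (1 - α))) (2 / S), fun n => ?_⟩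
    obtain ⟨h1, h2, h3, h4⟩ := hattpos _ (hp (n + N))
    have h5 := hN (n + N) (by omega)
    set x := (p (n + N)).1
    set y := (p (n + N)).2
    have hx0 : 0 < x := by linarith
    have hy0 : 0 < y := by linarith
    have e1 : G (p (n + N)) = x ^ (α - 1) / y := rfl
    rw [e1, lt_div_iff₀ hy0] at h5
    have hxle : x ^ (α - 1) ≤ 1 :=
      Real.rpow_le_one_of_one_le_of_nonpos (by linarith) (by linarith)
    have h6 : y ≤ 2 / S := by
      rw [le_div_iff₀ hSpos]; nlinarith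
    have h7 : S / 2 ≤ x ^ (α - 1) := by nlinarith
    have h8 : x ^ (1 - α) ≤ 2 / S := by
      have : x ^ (α - 1) = (x ^ (1 - α))⁻¹ := by
        rw [← Real.rpow_neg hx0.le]; congr 1; ring
      rw [this] at h7
      have h9 : 0 < x ^ (1 - α) := Real.rpow_pos_of_pos hx0 _
      have h10 := (inv_le_inv₀ (by positivity : (0:ℝ) < (x ^ (1 - α))⁻¹) (by positivity)).2 h7
      rw [inv_inv, inv_div] at h10
      exact h10
    have h11 : x ≤ (2 / S) ^ (1 / (1 - α)) := by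
      have h12 : x = (x ^ (1 - α)) ^ (1 / (1 - α)) := by
        rw [← Real.rpow_mul hx0.le, mul_one_div_cancel (by linarith), Real.rpow_one]
      rw [h12]
      exact Real.rpow_le_rpow (Real.rpow_nonneg hx0.le _) h8
        (one_div_nonneg.2 (by linarith))
    exact ⟨⟨hx0.le, h11.trans (le_max_left _ _)⟩, ⟨hy0.le, h6.trans (le_max_right _ _)⟩⟩
  obtain ⟨R, hR⟩ := hbound
  obtain ⟨q, -, k, hk, hkq⟩ := (isCompact_Icc.prod isCompact_Icc).tendsto_subseq hR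
  have hqatt : q ∈ attP := hclosed.mem_of_tendsto hkq (Eventually.of_forall fun n => hp _)
  obtain ⟨hq1, hq2, -, -⟩ := hattpos q hqatt
  have hGq : G q = S := by
    have hc : ContinuousAt G q := by
      apply ContinuousAt.div
      · exact (Real.continuousAt_rpow_const _ _ (Or.inl (by linarith))).comp continuousAt_fst
      · exact continuousAt_snd
      · linarith
    have h1 : Tendsto (fun n => G (p (k n + N))) atTop (𝓝 (G q)) := hc.tendsto.comp hkq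
    have h2 : Tendsto (fun n => G (p (k n + N))) atTop (𝓝 S) :=
      hlim.comp ((tendsto_add_atTop_nat N).comp hk.tendsto_atTop)
    exact tendsto_nhds_unique h1 h2
  obtain ⟨Ω, hΩ, hnΩ, hvΩ, rfl⟩ := hqatt
  have hfΩ : volume Ω ≠ ⊤ := ne_top_of_le_ne_top ENNReal.one_ne_top hvΩ
  refine ⟨Ω, hΩ, hnΩ, hfΩ, (opt_iff hΩ hnΩ hfΩ).2 ?_⟩
  intro U hU hnU hfU
  rw [hGU Ω hΩ hnΩ hfΩ] at hGq
  have hv0 := vol_pos hΩ hnΩ hfΩ
  have hv1 : vol Ω ≤ 1 := by
    unfold vol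
    exact ENNReal.toReal_le_of_le_ofReal (by norm_num) (by simpa using hvΩ)
  have h1 : S ≤ ratioJ α Ω := by
    unfold ratioJ
    rw [hGq, le_div_iff₀ (Real.rpow_pos_of_pos hv0 _)]
    have : vol Ω ^ (2 - α) ≤ 1 := Real.rpow_le_one hv0.le hv1 (by linarith)
    nlinarith
  refine le_trans ?_ h1
  obtain ⟨r, hr, hr1⟩ := exists_scl_one hU hnU hfU
  have hU' := scl_open (r := r) hU
  have hnU' := scl_nonempty hr.ne' hnU
  have hfU' := volume_scl_ne_top hr hfU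
  rw [← ratioJ_scl hr hU hnU hfU]
  have h2 : ratioJ α (scl r U) = lamP (scl r U) ^ α * torP (scl r U) := by
    unfold ratioJ; rw [hr1, Real.one_rpow, div_one]
  rw [h2, ← hGU _ hU' hnU' hfU']
  refine le_csSup hbdd ⟨_, ⟨scl r U, hU', hnU', ?_, rfl⟩, rfl⟩
  have : volume (scl r U) = ENNReal.ofReal (vol (scl r U)) := by
    unfold vol; rw [ENNReal.ofReal_toReal hfU']
  rw [this, hr1]; simp

/-- M6: the reduction -/
theorem reduction (hclosed : IsClosed attP)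
    (hperf : ∀ δ : ℝ, 0 < δ → ∃ U : Set P, IsOpen U ∧ U.Nonempty ∧ volume U ≠ ⊤ ∧
      (1 - δ) * (volume U).toReal ≤ lamP U * torP U) :
    ∀ δ : ℝ, 0 < δ → ∃ (α : ℝ) (Ω : Set P), 1 - δ < α ∧ 0 < α ∧ α < 1 ∧ IsOpen Ω ∧ Ω.Nonempty ∧
      volume Ω ≠ ⊤ ∧ lamP Ω = 1 ∧ (1 - δ) * vol Ω ≤ torP Ω ∧ torP Ω ≤ vol Ω ∧ Opt α Ω ∧
      IsPreconnected Ω := by
  intro δ hδ
  wlog hδ1 : δ < 1 generalizing δ with H
  · obtain ⟨α, Ω, h1, h2, h3, h4, h5, h6, h7, h8, h9⟩ := H (1/2) (by norm_num) (by norm_num)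
    refine ⟨α, Ω, by linarith, h2, h3, h4, h5, h6, h7, ?_, h9⟩
    have hv := vol_pos h4 h5 h6
    nlinarith
  obtain ⟨U, hU, hnU, hfU, hpU⟩ := hperf (δ / 2) (by positivity)
  have hl := lamP_pos hU hnU hfU
  have hT := torP_pos hU hnU hfU
  have hv := vol_pos hU hnU hfU
  change (1 - δ / 2) * vol U ≤ _ at hpU
  set M := lamP U * vol U with hM
  have hMpos : 0 < M := by positivity
  -- choose `α`
  have hcont : Tendsto (fun a : ℝ => (1 - δ / 2) * M ^ (a - 1)) (𝓝 1) (𝓝 ((1 - δ / 2) * M ^ ((1:ℝ) - 1))) := by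
    apply Tendsto.const_mul
    have : ContinuousAt (fun a : ℝ => M ^ (a - 1)) 1 :=
      (Real.continuousAt_const_rpow hMpos.ne').comp (by fun_prop)
    exact this
  rw [sub_self, Real.rpow_zero, mul_one] at hcont
  have hev1 : ∀ᶠ a in 𝓝[<] (1:ℝ), 1 - δ < (1 - δ / 2) * M ^ (a - 1) :=
    (hcont.mono_left nhdsWithin_le_nhds).eventually (lt_mem_nhds (by linarith))
  have hev2 : ∀ᶠ a in 𝓝[<] (1:ℝ), max (1 - δ) 0 < a :=
    (eventually_gt_nhds (by simp [hδ])).filter_mono nhdsWithin_le_nhds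
  have hev3 : ∀ᶠ a in 𝓝[<] (1:ℝ), a < 1 := eventually_mem_nhdsWithin
  obtain ⟨α, h1, h2, h3⟩ := (hev1.and (hev2.and hev3)).exists
  have hα0 : 0 < α := lt_of_le_of_lt (le_max_right _ _) h2
  obtain ⟨Ω', hΩ', hnΩ', hfΩ', hopt'⟩ := exists_opt hclosed hα0 h3
  have hl' := lamP_pos hΩ' hnΩ' hfΩ'
  -- scale to `λ = 1`
  set r : ℝ := (√(lamP Ω'))⁻¹ with hr
  have hr0 : 0 < r := inv_pos.2 (Real.sqrt_pos.2 hl')
  have hΩ := scl_open (r := r) hΩ'
  have hnΩ := scl_nonempty hr0.ne' hnΩ'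
  have hfΩ := volume_scl_ne_top hr0 hfΩ'
  have hl1 : lamP (scl r Ω') = 1 := by
    rw [lamP_scl hr0 hΩ' hnΩ', hr, inv_pow, Real.sq_sqrt hl'.le, inv_mul_cancel₀ hl'.ne']
  have hopt : Opt α (scl r Ω') := by
    rw [opt_iff hΩ hnΩ hfΩ, ratioJ_scl hr0 hΩ' hnΩ' hfΩ']
    exact (opt_iff hΩ' hnΩ' hfΩ').1 hopt'
  have hTle : torP (scl r Ω') ≤ vol (scl r Ω') := by
    have := lam_tor_le hΩ hnΩ hfΩ
    rwa [hl1, one_mul] at this
  refine ⟨α, scl r Ω', lt_of_le_of_lt (le_max_left _ _) h2, hα0, h3, hΩ, hnΩ, hfΩ, hl1, ?_, hTle,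
    hopt, connected_of_opt hα0 h3 hΩ hfΩ hopt⟩
  have h4 := (opt_iff hΩ hnΩ hfΩ).1 hopt U hU hnU hfU
  have hv' := vol_pos hΩ hnΩ hfΩ
  have hT' := torP_pos hΩ hnΩ hfΩ
  have hV2 : 1 ≤ vol (scl r Ω') := by
    have := lamP_lower hΩ hnΩ hfΩ
    rw [hl1, one_mul] at this
    linarith
  -- `J U ≥ (1 - δ/2) M^(α-1)`
  have h5 : (1 - δ / 2) * M ^ (α - 1) ≤ ratioJ α U := by
    unfold ratioJ
    rw [le_div_iff₀ (Real.rpow_pos_of_pos hv _)]
    have e1 : M ^ (α - 1) = lamP U ^ (α - 1) * vol U ^ (α - 1) := by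
      rw [hM, Real.mul_rpow hl.le hv.le]
    have e2 : vol U ^ (α - 1) * vol U ^ (2 - α) = vol U := by
      rw [← Real.rpow_add hv]
      have : α - 1 + (2 - α) = 1 := by ring
      rw [this, Real.rpow_one]
    have e3 : lamP U ^ α = lamP U ^ (α - 1) * lamP U := by
      rw [Real.rpow_sub_one hl.ne']; field_simp
    rw [e1, e3]
    have e4 : (1 - δ / 2) * (lamP U ^ (α - 1) * vol U ^ (α - 1)) * vol U ^ (2 - α)
        = lamP U ^ (α - 1) * ((1 - δ / 2) * vol U) := by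
      calc _ = lamP U ^ (α - 1) * ((1 - δ / 2) * (vol U ^ (α - 1) * vol U ^ (2 - α))) := by ring
        _ = _ := by rw [e2]
    rw [e4, mul_assoc]
    exact mul_le_mul_of_nonneg_left hpU (Real.rpow_nonneg hl.le _)
  have h6 : ratioJ α (scl r Ω') * vol (scl r Ω') ≤ torP (scl r Ω') := by
    unfold ratioJ
    rw [hl1, Real.one_rpow, one_mul, div_mul_eq_mul_div, div_le_iff₀ (Real.rpow_pos_of_pos hv' _)]
    have : vol (scl r Ω') ^ (1:ℝ) ≤ vol (scl r Ω') ^ (2 - α) :=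
      Real.rpow_le_rpow_of_exponent_le hV2 (by linarith)
    rw [Real.rpow_one] at this
    nlinarith
  refine le_trans ?_ h6
  have : 1 - δ ≤ ratioJ α (scl r Ω') := by linarith
  nlinarith

end Pool.Agent.Lib.MP_f46d6a
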