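import Pool.Agent.Lib.MP_f46d6a.Defs

/-!
# Scaling, monotonicity and additivity of the eigenvalue and the torsional rigidity (helper79)
-/

set_option autoImplicit false

open MeasureTheory Set Filter Topology
open scoped ContDiff

namespace Pool.Agent.Lib.MP_f46d6a

open Pool.Agent.Lib.MP_dac83a

/-- the dilated set `r⁻¹ U` -/
def scl (r : ℝ) (U : Set P) : Set P := (fun z : P => r • z) ⁻¹' U

theorem scl_inv {r : ℝ} (hr : r ≠ 0) (U : Set P) : scl r⁻¹ (scl r U) = U := by
  ext z
  simp [scl, smul_smul, hr]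

theorem scl_inv' {r : ℝ} (hr : r ≠ 0) (U : Set P) : scl r (scl r⁻¹ U) = U := by
  ext z
  simp [scl, smul_smul, hr]

theorem scl_open {r : ℝ} {U : Set P} (hU : IsOpen U) : IsOpen (scl r U) :=
  hU.preimage (continuous_const_smul r)

theorem scl_nonempty {r : ℝ} (hr : r ≠ 0) {U : Set P} (hU : U.Nonempty) : (scl r U).Nonempty := by
  obtain ⟨z, hz⟩ := hU
  exact ⟨r⁻¹ • z, by simp [scl, smul_smul, hr, hz]⟩

theorem finrank_P : Module.finrank ℝ P = 2 := by simp [P]

theorem volume_scl {r : ℝ} (hr : 0 < r) (U : Set P) :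
    volume (scl r U) = ENNReal.ofReal (r ^ 2)⁻¹ * volume U := by
  unfold scl
  rw [Measure.addHaar_preimage_smul volume hr.ne' U, finrank_P, abs_of_nonneg (by positivity)]

theorem volume_scl_ne_top {r : ℝ} (hr : 0 < r) {U : Set P} (hf : volume U ≠ ⊤) :
    volume (scl r U) ≠ ⊤ := by
  rw [volume_scl hr]
  exact ENNReal.mul_ne_top ENNReal.ofReal_ne_top hf

theorem vol_scl {r : ℝ} (hr : 0 < r) (U : Set P) : vol (scl r U) = (r ^ 2)⁻¹ * vol U := by
  unfold vol
  rw [volume_scl hr, ENNReal.toReal_mul, ENNReal.toReal_ofReal (by positivity)]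

theorem integral_scl {r : ℝ} (hr : 0 < r) (f : P → ℝ) :
    ∫ z, f (r • z) = (r ^ 2)⁻¹ * ∫ z, f z := by
  rw [Measure.integral_comp_smul volume f r, finrank_P, abs_of_nonneg (by positivity), smul_eq_mul]

theorem _root_.Pool.Agent.Lib.MP_dac83a.IsTest.scl {r : ℝ} (hr : r ≠ 0) {U : Set P} {φ : P → ℝ} (h : IsTest U φ) :
    IsTest (Pool.Agent.Lib.MP_f46d6a.scl r U) (fun z => φ (r • z)) := by
  have hts : tsupport (fun z => φ (r • z)) = (fun z : P => r • z) ⁻¹' tsupport φ :=
    tsupport_comp_eq_preimage φ (Homeomorph.smulOfNeZero r hr)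
  refine ⟨h.smooth.comp (contDiff_const_smul r), ?_, ?_⟩
  · exact h.cpt.comp_homeomorph (Homeomorph.smulOfNeZero r hr)
  · rw [hts]
    exact preimage_mono h.sub

theorem dd_scl {r : ℝ} {φ : P → ℝ} (h : Differentiable ℝ φ) (v z : P) :
    dd v (fun z => φ (r • z)) z = r * dd v φ (r • z) := by
  unfold dd
  have h1 : HasFDerivAt (fun z : P => r • z) (r • ContinuousLinearMap.id ℝ P) z :=
    (hasFDerivAt_id z).const_smul r
  have h2 := ((h (r • z)).hasFDerivAt.comp z h1).fderiv
  have h3 : (fun z => φ (r • z)) = φ ∘ fun z => r • z := rfl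
  rw [h3, h2]
  simp

theorem Nm_scl {r : ℝ} (hr : 0 < r) (φ : P → ℝ) :
    Nm (fun z => φ (r • z)) = (r ^ 2)⁻¹ * Nm φ := by
  unfold Nm
  exact integral_scl hr (fun z => φ z ^ 2)

theorem En_scl {r : ℝ} (hr : 0 < r) {φ : P → ℝ} (h : Differentiable ℝ φ) :
    En (fun z => φ (r • z)) = En φ := by
  unfold En
  simp only [dd_scl h]
  have e : (fun z : P => (r * dd ex φ (r • z)) ^ 2 + (r * dd ey φ (r • z)) ^ 2)
      = fun z => (fun y => r ^ 2 * (dd ex φ y ^ 2 + dd ey φ y ^ 2)) (r • z) := by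
    ext z; ring
  rw [e, integral_scl hr (fun y => r ^ 2 * (dd ex φ y ^ 2 + dd ey φ y ^ 2)), integral_const_mul,
    ← mul_assoc, inv_mul_cancel₀ (by positivity), one_mul]

theorem _root_.Pool.Agent.Lib.MP_dac83a.IsTest.diff {U : Set P} {φ : P → ℝ} (h : IsTest U φ) : Differentiable ℝ φ :=
  h.smooth.differentiable (by norm_num)

theorem lamP_scl_le {r : ℝ} (hr : 0 < r) {U : Set P} (hU : IsOpen U) (hne : U.Nonempty) :
    lamP (Pool.Agent.Lib.MP_f46d6a.scl r U) ≤ r ^ 2 * lamP U := by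
  have h1 : (r ^ 2)⁻¹ * lamP (Pool.Agent.Lib.MP_f46d6a.scl r U) ≤ lamP U := by
    apply lamP_ge hU hne
    intro φ hφ
    have h2 := lamP_mul_le (hφ.scl hr.ne')
    rw [Nm_scl hr, En_scl hr hφ.diff] at h2
    linarith
  rwa [inv_mul_le_iff₀ (by positivity)] at h1

theorem lamP_scl {r : ℝ} (hr : 0 < r) {U : Set P} (hU : IsOpen U) (hne : U.Nonempty) :
    lamP (Pool.Agent.Lib.MP_f46d6a.scl r U) = r ^ 2 * lamP U := by
  apply le_antisymm (lamP_scl_le hr hU hne)
  have h1 := lamP_scl_le (inv_pos.2 hr) (scl_open (r := r) hU) (scl_nonempty hr.ne' hne)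
  rw [scl_inv hr.ne'] at h1
  have h2 : (r⁻¹) ^ 2 = (r ^ 2)⁻¹ := by rw [inv_pow]
  rw [h2] at h1
  rw [← le_inv_mul_iff₀ (by positivity)]
  exact h1

theorem torP_scl_le {r : ℝ} (hr : 0 < r) {U : Set P} (hU : IsOpen U) (hf : volume U ≠ ⊤) :
    torP (Pool.Agent.Lib.MP_f46d6a.scl r U) ≤ (r ^ 4)⁻¹ * torP U := by
  apply torP_le
  intro ψ hψ
  set φ : P → ℝ := fun z => ψ (r⁻¹ • z) with hφ
  have ht : IsTest U φ := by
    have := hψ.scl (inv_ne_zero hr.ne')
    rwa [scl_inv hr.ne'] at this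
  have e1 : ψ = fun z => φ (r • z) := by
    ext z; simp [hφ, smul_smul, hr.ne']
  have h2 := torP_ge_test hU hf (ht.const_mul (r ^ 2))
  have e2 : En (fun z => r ^ 2 * φ z) = (r ^ 2) ^ 2 * En φ := by
    have := En_comb ht ht (r ^ 2) 0
    simp only [zero_mul, add_zero, mul_zero] at this
    rw [this]; ring
  rw [integral_const_mul, e2] at h2
  rw [e1, integral_scl hr, En_scl hr ht.diff, le_inv_mul_iff₀ (by positivity)]
  have e3 : r ^ 4 * (2 * ((r ^ 2)⁻¹ * ∫ z, φ z) - En φ)
      = 2 * (r ^ 2 * ∫ z, φ z) - (r ^ 2) ^ 2 * En φ := by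
    field_simp
  rw [e3]
  exact h2

theorem torP_scl {r : ℝ} (hr : 0 < r) {U : Set P} (hU : IsOpen U) (hf : volume U ≠ ⊤) :
    torP (Pool.Agent.Lib.MP_f46d6a.scl r U) = (r ^ 4)⁻¹ * torP U := by
  apply le_antisymm (torP_scl_le hr hU hf)
  have h1 := torP_scl_le (inv_pos.2 hr) (scl_open (r := r) hU) (volume_scl_ne_top hr hf)
  rw [scl_inv hr.ne', inv_pow, inv_inv] at h1
  rwa [inv_mul_le_iff₀ (by positivity)]

theorem lamP_anti {U V : Set P} (hU : IsOpen U) (hne : U.Nonempty) (h : U ⊆ V) :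
    lamP V ≤ lamP U :=
  lamP_ge hU hne fun _ hφ => lamP_mul_le (hφ.mono h)

/-- the part of a test function living in one of two disjoint open sets -/
theorem _root_.Pool.Agent.Lib.MP_dac83a.IsTest.part {U V : Set P} (hU : IsOpen U) (hV : IsOpen V) (hd : Disjoint U V) {φ : P → ℝ}
    (h : IsTest (U ∪ V) φ) : IsTest U (U.indicator φ) := by
  have hK : IsCompact (tsupport φ \ V) := h.cpt.isCompact.diff hV
  have hKU : tsupport φ \ V ⊆ U := by
    rintro z ⟨h1, h2⟩
    exact (h.sub h1).resolve_right h2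
  have h0 : ∀ z, z ∉ tsupport φ \ V → U.indicator φ z = 0 := by
    intro z hz
    by_cases hzU : z ∈ U
    · rw [indicator_of_mem hzU]
      have hzV : z ∉ V := fun hzV => (Set.disjoint_left.1 hd hzU hzV)
      by_contra h1
      exact hz ⟨subset_tsupport _ h1, hzV⟩
    · exact indicator_of_notMem hzU _
  have hs : ContDiffOn ℝ ∞ (U.indicator φ) U := by
    apply h.smooth.contDiffOn.congr
    intro z hz
    exact indicator_of_mem hz _
  obtain ⟨a, b, c⟩ := contDiff_of_vanish hU hK hKU hs h0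
  exact ⟨a, b, c.trans hKU⟩

theorem torP_union {U V : Set P} (hU : IsOpen U) (hV : IsOpen V) (hd : Disjoint U V)
    (hfU : volume U ≠ ⊤) (hfV : volume V ≠ ⊤) : torP (U ∪ V) ≤ torP U + torP V := by
  apply torP_le
  intro φ hφ
  have h1 := hφ.part hU hV hd
  have h2 : IsTest V (V.indicator φ) := by
    rw [union_comm] at hφ
    exact hφ.part hV hU hd.symm
  have e : φ = fun z => 1 * U.indicator φ z + 1 * V.indicator φ z := by
    ext z
    by_cases hzU : z ∈ U
    · have hzV : z ∉ V := fun hzV => (Set.disjoint_left.1 hd hzU hzV)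
      simp [hzU, hzV]
    · by_cases hzV : z ∈ V
      · simp [hzU, hzV]
      · simp only [indicator_of_notMem hzU, indicator_of_notMem hzV]
        have : z ∉ tsupport φ := fun h => (hφ.sub h).elim hzU hzV
        rw [image_eq_zero_of_notMem_tsupport this]; ring
  have h3 := torP_ge_test hU hfU h1
  have h4 := torP_ge_test hV hfV h2
  have hdis : ∀ v z, dd v (U.indicator φ) z * dd v (V.indicator φ) z = 0 := by
    intro v z
    by_cases hzU : z ∈ tsupport (U.indicator φ)
    · have : z ∉ tsupport (V.indicator φ) := fun hzV =>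
        Set.disjoint_left.1 hd (h1.sub hzU) (h2.sub hzV)
      rw [dd_zero_of_notMem_tsupport this, mul_zero]
    · rw [dd_zero_of_notMem_tsupport hzU, zero_mul]
  have eE : En φ = En (U.indicator φ) + En (V.indicator φ) := by
    have hUU : Integrable (fun z => dd ex (U.indicator φ) z ^ 2 + dd ey (U.indicator φ) z ^ 2)
      volume := (h1.dd ex).int_sq.add (h1.dd ey).int_sq
    have hVV : Integrable (fun z => dd ex (V.indicator φ) z ^ 2 + dd ey (V.indicator φ) z ^ 2)
      volume := (h2.dd ex).int_sq.add (h2.dd ey).int_sq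
    unfold En
    rw [← integral_add hUU hVV]
    congr 1
    ext z
    have key : ∀ v, dd v φ z = dd v (U.indicator φ) z + dd v (V.indicator φ) z := by
      intro v
      conv_lhs => rw [e]
      have := dd_add (f := fun z => 1 * U.indicator φ z) (g := fun z => 1 * V.indicator φ z)
        (z := z) ((h1.diff z).const_mul 1) ((h2.diff z).const_mul 1) v
      rw [this, dd_const_mul (h1.diff z), dd_const_mul (h2.diff z)]
      ring
    rw [key ex, key ey]
    have a1 := hdis ex z
    have a2 := hdis ey z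
    nlinarith
  have eI : ∫ z, φ z = (∫ z, U.indicator φ z) + ∫ z, V.indicator φ z := by
    rw [← integral_add h1.integrable h2.integrable]
    congr 1
    ext z
    conv_lhs => rw [e]
    ring
  rw [eE, eI]
  linarith

end Pool.Agent.Lib.MP_f46d6a
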