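import Pool.Agent.Lib.MP_f46d6a_h79.Reduce
import Pool.Agent.Lib.MP_f46d6a_h79.EDefs
import Pool.Agent.Lib.MP_dac83a.Transfer

/-!
# Transfer from the Euclidean plane to `ℝ × ℝ` (helper79)
-/

set_option autoImplicit false

open MeasureTheory Set Filter Topology
open scoped ContDiff

namespace Pool.Agent.Lib.MP_f46d6a

open Pool.Agent.Lib.MP_dac83a Pool.Agent.MP_f46d6a

theorem isTestOn_iff {U : Set P} {φ : P → ℝ} :
    IsTestOn (ee ⁻¹' U) (φ ∘ ee) ↔ IsTest U φ := test_transfer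

theorem lambda1_transfer (U : Set P) : lambda1 (ee ⁻¹' U) = lamP U := by
  unfold lambda1 lamP
  congr 1
  ext q
  constructor
  · rintro ⟨u, hu, h1, rfl⟩
    have e : u = (u ∘ ee.symm) ∘ ee := by ext z; simp
    rw [e] at hu h1 ⊢
    refine ⟨u ∘ ee.symm, isTestOn_iff.1 hu, ?_, ?_⟩
    · rwa [← Nm_transfer]
    · rw [← Nm_transfer, ← En_transfer]; rfl
  · rintro ⟨φ, hφ, h1, rfl⟩
    refine ⟨φ ∘ ee, isTestOn_iff.2 hφ, ?_, ?_⟩
    · rw [← Nm_transfer] at h1; exact h1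
    · rw [← Nm_transfer, ← En_transfer]; rfl

theorem integral_transfer (φ : P → ℝ) : ∫ y : E2, φ (ee y) = ∫ z, φ z :=
  ee_mp.integral_comp ee_emb φ

theorem torsion_transfer (U : Set P) : torsion (ee ⁻¹' U) = torP U := by
  unfold torsion torP
  congr 1
  ext q
  constructor
  · rintro ⟨u, hu, rfl⟩
    have e : u = (u ∘ ee.symm) ∘ ee := by ext z; simp
    rw [e] at hu ⊢
    refine ⟨u ∘ ee.symm, isTestOn_iff.1 hu, ?_⟩
    rw [← integral_transfer, ← En_transfer]; rfl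
  · rintro ⟨φ, hφ, rfl⟩
    refine ⟨φ ∘ ee, isTestOn_iff.2 hφ, ?_⟩
    rw [← integral_transfer, ← En_transfer]; rfl

theorem volume_transfer {U : Set P} (hU : MeasurableSet U) : volume (ee ⁻¹' U) = volume U :=
  ee_mp.measure_preimage hU.nullMeasurableSet

/-- the attainable set in coordinates is the attainable set -/
theorem attainable_two : attainable 2 = attP := by
  ext p
  constructor
  · rintro ⟨Ω, hΩ, hne, hv, rfl⟩
    have e : Ω = ee ⁻¹' (ee.symm ⁻¹' Ω) := by ext x; simp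
    have hO : IsOpen (ee.symm ⁻¹' Ω) := hΩ.preimage ee.symm.continuous
    refine ⟨ee.symm ⁻¹' Ω, hO, ?_, ?_, ?_⟩
    · obtain ⟨x, hx⟩ := hne
      exact ⟨ee x, by simpa using hx⟩
    · rw [← volume_transfer hO.measurableSet, ← e]; exact hv
    · rw [← lambda1_transfer, ← torsion_transfer, ← e]
  · rintro ⟨U, hU, hne, hv, rfl⟩
    refine ⟨ee ⁻¹' U, hU.preimage ee.continuous, ?_, ?_, ?_⟩
    · obtain ⟨z, hz⟩ := hne
      exact ⟨ee.symm z, by simpa using hz⟩
    · rw [volume_transfer hU.measurableSet]; exact hv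
    · rw [lambda1_transfer, torsion_transfer]

/-- the final step: non-closedness of `E_2` from the perforated boxes and the absence of critical
sets with `λ = 1`, `T` close to the area -/
theorem not_closed_of (hperf : ∀ δ : ℝ, 0 < δ → ∃ U : Set P, IsOpen U ∧ U.Nonempty ∧
      volume U ≠ ⊤ ∧ (1 - δ) * (volume U).toReal ≤ lamP U * torP U)
    (hno : ∃ δ : ℝ, 0 < δ ∧ ∀ (α : ℝ) (Ω : Set P), 1 - δ < α → 0 < α → α < 1 → IsOpen Ω →
      Ω.Nonempty → volume Ω ≠ ⊤ → lamP Ω = 1 → (1 - δ) * vol Ω ≤ torP Ω → torP Ω ≤ vol Ω →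
      Opt α Ω → IsPreconnected Ω → False) :
    ¬ IsClosed (attainable 2) := by
  intro hcl
  rw [attainable_two] at hcl
  obtain ⟨δ, hδ, hno⟩ := hno
  obtain ⟨α, Ω, h1, h2, h3, h4, h5, h6, h7, h8, h9, h10, h11⟩ := reduction hcl hperf δ hδ
  exact hno α Ω h1 h2 h3 h4 h5 h6 h7 h8 h9 h10 h11

end Pool.Agent.Lib.MP_f46d6a
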